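import Mathlib

set_option autoImplicit false

/-!
# Matchings as involutions
-/

namespace Pool.Agent.U96.EV

open Finset

/-- a matching missing at most `d` vertices, as an involution -/
def Mt {V : Type} [Fintype V] [DecidableEq V] (G : SimpleGraph V) (d : ℕ) : Prop :=
  ∃ m : V → V, (∀ v, m (m v) = v) ∧ (∀ v, m v ≠ v → G.Adj v (m v)) ∧
    (univ.filter fun v => m v = v).card ≤ d

theorem virt {V W : Type} [Fintype V] [DecidableEq V] [Fintype W] [DecidableEq W]
    (G : SimpleGraph V) (M : W → W) (hM : ∀ w, M (M w) = w) (ρ : V → Option W)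
    (hρ : ∀ v v' w, ρ v = some w → ρ v' = some w → v = v')
    (hadj : ∀ v v' w, ρ v = some w → ρ v' = some (M w) → G.Adj v v') (d : ℕ)
    (hd : (univ.filter fun v => ρ v = none).card +
      (univ.filter fun w => ∀ v, ρ v ≠ some w).card ≤ d) : Mt G d := by
  classical
  set m : V → V := fun v => if h : ∃ v' w, ρ v = some w ∧ ρ v' = some (M w) then h.choose else v
    with hm
  have h1 : ∀ v v' w, ρ v = some w → ρ v' = some (M w) → m v = v' := by
    intro v v' w h2 h3
    have h : ∃ v' w, ρ v = some w ∧ ρ v' = some (M w) := ⟨v', w, h2, h3⟩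
    simp only [hm, dif_pos h]
    obtain ⟨w', h4, h5⟩ := h.choose_spec
    have : w' = w := by
      rw [h2] at h4
      exact (Option.some.inj h4).symm
    subst this
    exact hρ _ _ _ h5 h3
  have h2 : ∀ v, (¬ ∃ v' w, ρ v = some w ∧ ρ v' = some (M w)) → m v = v := by
    intro v h
    simp only [hm, dif_neg h]
  refine ⟨m, ?_, ?_, ?_⟩
  · intro v
    by_cases h : ∃ v' w, ρ v = some w ∧ ρ v' = some (M w)
    · obtain ⟨v', w, h3, h4⟩ := h
      rw [h1 v v' w h3 h4, h1 v' v (M w) h4 (by rw [hM]; exact h3)]
    · rw [h2 v h, h2 v h]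
  · intro v hv
    by_cases h : ∃ v' w, ρ v = some w ∧ ρ v' = some (M w)
    · obtain ⟨v', w, h3, h4⟩ := h
      rw [h1 v v' w h3 h4]
      exact hadj v v' w h3 h4
    · exact absurd (h2 v h) hv
  · refine le_trans ?_ hd
    have h3 : (univ.filter fun v => m v = v) ⊆ (univ.filter fun v => ρ v = none) ∪
        (univ.filter fun v => ∃ w, ρ v = some w ∧ ∀ v', ρ v' ≠ some (M w)) := by
      intro v hv
      rw [Finset.mem_filter] at hv
      rw [Finset.mem_union, Finset.mem_filter, Finset.mem_filter]
      rcases h4 : ρ v with _ | w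
      · exact Or.inl ⟨Finset.mem_univ _, rfl⟩
      · refine Or.inr ⟨Finset.mem_univ _, w, rfl, fun v' h5 => ?_⟩
        have h6 := hadj v v' w h4 h5
        rw [← h1 v v' w h4 h5, hv.2] at h6
        exact h6.ne rfl
    refine (Finset.card_le_card h3).trans ((Finset.card_union_le _ _).trans ?_)
    refine Nat.add_le_add_left ?_ _
    have h5 : (univ.filter fun w => ∀ v, ρ v ≠ some w).card =
        ((univ.filter fun w => ∀ v, ρ v ≠ some w).image some).card :=
      (Finset.card_image_of_injective _ (Option.some_injective W)).symm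
    rw [h5]
    refine Finset.card_le_card_of_injOn (fun v => (ρ v).map M) ?_ ?_
    · intro v hv
      simp only [Finset.coe_filter, Finset.mem_univ, true_and, Set.mem_ofPred_eq] at hv
      obtain ⟨w, h6, h7⟩ := hv
      simp only [Finset.coe_image, Finset.coe_filter, Finset.mem_univ, true_and, Set.mem_image,
        Set.mem_ofPred_eq]
      exact ⟨M w, h7, by rw [h6]; rfl⟩
    · intro v hv v' hv' h8
      simp only [Finset.coe_filter, Finset.mem_univ, true_and, Set.mem_ofPred_eq] at hv hv'
      obtain ⟨w, h6, _⟩ := hv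
      obtain ⟨w', h6', _⟩ := hv'
      simp only [h6, h6', Option.map_some, Option.some.injEq] at h8
      have : w = w' := by rw [← hM w, h8, hM]
      subst this
      exact hρ _ _ _ h6 h6'

/-- the virtual matching of two halves along a permutation, and a further involution -/
def MM {T Z : Type} {h : ℕ} (π : Equiv.Perm T) (mz : Z → Z) :
    (T × (Bool × Fin h)) ⊕ Z → (T × (Bool × Fin h)) ⊕ Z
  | .inl (t, (true, k)) => .inl (π t, (false, k))
  | .inl (t, (false, k)) => .inl (π.symm t, (true, k))
  | .inr z => .inr (mz z)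

theorem MM_MM {T Z : Type} {h : ℕ} (π : Equiv.Perm T) (mz : Z → Z) (hz : ∀ z, mz (mz z) = z)
    (w : (T × (Bool × Fin h)) ⊕ Z) : MM π mz (MM π mz w) = w := by
  rcases w with ⟨t, (_ | _), k⟩ | z
  · simp [MM]
  · simp [MM]
  · simp [MM, hz]

theorem virt2 {V T Z : Type} [Fintype V] [DecidableEq V] [Fintype T] [DecidableEq T] [Fintype Z]
    [DecidableEq Z] {h : ℕ} (G : SimpleGraph V) (π : Equiv.Perm T) (mz : Z → Z)
    (hz : ∀ z, mz (mz z) = z) (ρ : V → Option ((T × (Bool × Fin h)) ⊕ Z))
    (hρ : ∀ v v' w, ρ v = some w → ρ v' = some w → v = v')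
    (hadj : ∀ v v' t k, ρ v = some (.inl (t, (true, k))) → ρ v' = some (.inl (π t, (false, k))) →
      G.Adj v v')
    (hadz : ∀ v v' z, ρ v = some (.inr z) → ρ v' = some (.inr (mz z)) → G.Adj v v') (d : ℕ)
    (hd : (univ.filter fun v => ρ v = none).card +
      (univ.filter fun w => ∀ v, ρ v ≠ some w).card ≤ d) : Mt G d := by
  refine virt G (MM π mz) (MM_MM π mz hz) ρ hρ ?_ d hd
  rintro v v' (⟨t, (_ | _), k⟩ | z) h1 h2
  · have h2' : ρ v' = some (.inl (π.symm t, (true, k))) := h2
    exact (hadj v' v _ k h2' (by rw [Equiv.apply_symm_apply]; exact h1)).symm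
  · exact hadj v v' t k h1 h2
  · exact hadz v v' z h1 h2

/-- from a matching as an involution to disjoint edges -/
theorem Mt.edges {n d k : ℕ} {G : SimpleGraph (Fin n)} (h : Mt G d) (hk : 2 * k + d ≤ n) :
    ∃ f : Fin k × Bool → Fin n, Function.Injective f ∧ ∀ i, G.Adj (f (i, true)) (f (i, false)) := by
  classical
  obtain ⟨m, hm, hadj, hfix⟩ := h
  set A : Finset (Fin n) := univ.filter fun v => v < m v with hA
  have hcard : n ≤ 2 * A.card + d := by
    have h1 : (univ : Finset (Fin n)) ⊆ (A ∪ A.image m) ∪ univ.filter fun v => m v = v := by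
      intro v _
      rw [Finset.mem_union, Finset.mem_union]
      rcases lt_trichotomy v (m v) with h2 | h2 | h2
      · exact Or.inl (Or.inl (Finset.mem_filter.2 ⟨Finset.mem_univ _, h2⟩))
      · exact Or.inr (Finset.mem_filter.2 ⟨Finset.mem_univ _, h2.symm⟩)
      · refine Or.inl (Or.inr (Finset.mem_image.2 ⟨m v, ?_, hm v⟩))
        exact Finset.mem_filter.2 ⟨Finset.mem_univ _, by rw [hm]; exact h2⟩
    have h2 := Finset.card_le_card h1
    rw [Finset.card_univ, Fintype.card_fin] at h2
    have h3 := Finset.card_union_le (A ∪ A.image m) (univ.filter fun v => m v = v)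
    have h4 := Finset.card_union_le A (A.image m)
    have h5 : (A.image m).card ≤ A.card := Finset.card_image_le
    omega
  have hkA : k ≤ A.card := by omega
  obtain ⟨B, hBA, hB⟩ := Finset.exists_subset_card_eq hkA
  let e : Fin k ≃ B := (Fintype.equivFinOfCardEq (by rw [Fintype.card_coe, hB])).symm
  have hlt : ∀ i, (e i : Fin n) < m (e i) := by
    intro i
    exact (Finset.mem_filter.1 (hBA (e i).2)).2
  have hinj : Function.Injective m := fun x y hxy => by rw [← hm x, hxy, hm]
  refine ⟨fun x => if x.2 = true then (e x.1 : Fin n) else m (e x.1), ?_, ?_⟩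
  · rintro ⟨i, _ | _⟩ ⟨j, _ | _⟩ hij
    · simp only [Bool.false_eq_true, if_false] at hij
      have := e.injective (Subtype.ext (hinj hij))
      rw [this]
    · exfalso
      simp only [Bool.false_eq_true, if_false, if_true] at hij
      have h1 := hlt i
      have h2 := hlt j
      rw [hij] at h1
      rw [← hij, hm] at h2
      rw [hij] at h2
      exact lt_asymm h1 h2
    · exfalso
      simp only [Bool.false_eq_true, if_false, if_true] at hij
      have h1 := hlt i
      have h2 := hlt j
      rw [hij, hm] at h1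
      exact lt_asymm h1 h2
    · simp only [if_true] at hij
      have := e.injective (Subtype.ext hij)
      rw [this]
  · intro i
    simp only [Bool.false_eq_true, if_false, if_true]
    exact hadj _ (hlt i).ne'

theorem Mt.map {V V' : Type} [Fintype V] [DecidableEq V] [Fintype V'] [DecidableEq V']
    {G : SimpleGraph V} {G' : SimpleGraph V'} {d : ℕ} (e : V ≃ V')
    (he : ∀ u v, G.Adj u v → G'.Adj (e u) (e v)) (h : Mt G d) : Mt G' d := by
  obtain ⟨m, hm, hadj, hfix⟩ := h
  refine ⟨fun v => e (m (e.symm v)), ?_, ?_, ?_⟩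
  · intro v
    simp [hm]
  · intro v hv
    have h1 : m (e.symm v) ≠ e.symm v := fun h => hv (by simp [h])
    have := he _ _ (hadj _ h1)
    rwa [Equiv.apply_symm_apply] at this
  · refine le_trans ?_ hfix
    have h1 : (univ.filter fun v => e (m (e.symm v)) = v) ⊆
        (univ.filter fun v => m v = v).map e.toEmbedding := by
      intro v hv
      rw [Finset.mem_filter] at hv
      rw [Finset.mem_map]
      refine ⟨e.symm v, Finset.mem_filter.2 ⟨Finset.mem_univ _, ?_⟩, by simp⟩
      have := hv.2
      rw [← Equiv.eq_symm_apply] at this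
      exact this
    exact (Finset.card_le_card h1).trans (Finset.card_map _).le

/-! ### the Cayley graph of one element -/

/-- in the Cayley graph of an element `z ≠ 0` there is a matching missing at most a third of the
elements -/
theorem cyc {B : Type} [AddCommGroup B] [Fintype B] [DecidableEq B] (z : B) (hz : z ≠ 0) :
    ∃ m : B → B, (∀ x, m (m x) = x) ∧ (∀ x, m x ≠ x → m x - x = z ∨ x - m x = z) ∧
      3 * (univ.filter fun x => m x = x).card ≤ Fintype.card B := by
  classical
  set c := addOrderOf z with hc
  have hc0 : 0 < c := addOrderOf_pos z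
  have hc1 : c ≠ 1 := fun h => hz (AddMonoid.addOrderOf_eq_one_iff.1 h)
  set H := AddSubgroup.zmultiples z with hH
  -- coordinates
  have hex : ∀ x : B, ∃ j, j < c ∧ x = (QuotientAddGroup.mk x : B ⧸ H).out + j • z := by
    intro x
    have h1 : (QuotientAddGroup.mk ((QuotientAddGroup.mk x : B ⧸ H).out) : B ⧸ H) =
        QuotientAddGroup.mk x := Quotient.out_eq _
    rw [QuotientAddGroup.eq] at h1
    rw [hH, mem_zmultiples_iff_mem_range_addOrderOf] at h1
    rw [Finset.mem_image] at h1
    obtain ⟨j, hj, h2⟩ := h1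
    exact ⟨j, Finset.mem_range.1 hj, by rw [h2]; abel⟩
  choose j hj hx using hex
  have huniq : ∀ (x : B) (i : ℕ), i < c → x = (QuotientAddGroup.mk x : B ⧸ H).out + i • z →
      j x = i := by
    intro x i hi h1
    have h2 : j x • z = i • z := by
      have h3 := hx x
      have h4 : (QuotientAddGroup.mk x : B ⧸ H).out + j x • z =
          (QuotientAddGroup.mk x : B ⧸ H).out + i • z := by
        rw [← h1]
        exact h3.symm
      exact add_left_cancel h4
    exact nsmul_injOn_Iio_addOrderOf (hj x) hi h2
  have hmk : ∀ x : B, (QuotientAddGroup.mk (x + z) : B ⧸ H) = QuotientAddGroup.mk x := by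
    intro x
    rw [QuotientAddGroup.eq]
    have : -(x + z) + x = -z := by abel
    rw [this]
    exact H.neg_mem (AddSubgroup.mem_zmultiples z)
  have hup : ∀ x, j x + 1 < c → j (x + z) = j x + 1 := by
    intro x h1
    refine huniq _ _ h1 ?_
    rw [hmk, succ_nsmul, ← add_assoc]
    exact congrArg (· + z) (hx x)
  have hmk' : ∀ x : B, (QuotientAddGroup.mk (x - z) : B ⧸ H) = QuotientAddGroup.mk x := by
    intro x
    rw [← hmk (x - z), sub_add_cancel]
  have hdn : ∀ x, 0 < j x → j (x - z) + 1 = j x := by
    intro x h1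
    have h2 : j (x - z) = j x - 1 := by
      refine huniq _ _ (by have := hj x; omega) ?_
      rw [hmk', sub_eq_iff_eq_add, add_assoc, ← succ_nsmul, Nat.sub_add_cancel h1]
      exact hx x
    omega
  set m : B → B := fun x => if j x % 2 = 0 then (if j x + 1 < c then x + z else x) else x - z
    with hm
  have m0 : ∀ x, j x % 2 = 0 → j x + 1 < c → m x = x + z := by
    intro x h1 h2
    simp only [hm, if_pos h1, if_pos h2]
  have m1 : ∀ x, j x % 2 = 0 → ¬ j x + 1 < c → m x = x := by
    intro x h1 h2
    simp only [hm, if_pos h1, if_neg h2]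
  have m2 : ∀ x, ¬ j x % 2 = 0 → m x = x - z := by
    intro x h1
    simp only [hm, if_neg h1]
  refine ⟨m, ?_, ?_, ?_⟩
  · intro x
    by_cases h1 : j x % 2 = 0
    · by_cases h2 : j x + 1 < c
      · rw [m0 x h1 h2, m2 _ (by rw [hup x h2]; omega), add_sub_cancel_right]
      · rw [m1 x h1 h2, m1 x h1 h2]
    · have h3 := hdn x (by omega)
      have h4 := hj x
      rw [m2 x h1, m0 _ (by omega) (by omega), sub_add_cancel]
  · intro x hx'
    by_cases h1 : j x % 2 = 0
    · by_cases h2 : j x + 1 < c
      · left
        rw [m0 x h1 h2]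
        abel
      · exact absurd (m1 x h1 h2) hx'
    · right
      rw [m2 x h1]
      abel
  · -- fixed points
    have hfix : ∀ x, m x = x → j x % 2 = 0 ∧ j x + 1 = c := by
      intro x h
      by_cases h1 : j x % 2 = 0
      · by_cases h2 : j x + 1 < c
        · rw [m0 x h1 h2] at h
          exact absurd (add_eq_left.1 h) hz
        · have := hj x
          exact ⟨h1, by omega⟩
      · rw [m2 x h1, sub_eq_self] at h
        exact absurd h hz
    set F := univ.filter fun x => m x = x with hF
    have h3 : (univ : Finset (Fin 3)).card * F.card ≤ Fintype.card B := by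
      rw [← Finset.card_product, ← Finset.card_univ]
      refine Finset.card_le_card_of_injOn (fun p => p.2 - (p.1 : ℕ) • z)
        (fun _ _ => Finset.mem_coe.2 (Finset.mem_univ _)) ?_
      have key : ∀ (x : B) (i : ℕ), m x = x → i < 3 → j (x - i • z) + i + 1 = c := by
        intro x i hxm hi
        obtain ⟨h1, h2⟩ := hfix x hxm
        have h4 : 2 ≤ j x := by omega
        interval_cases i
        · rw [zero_smul, sub_zero]
          omega
        · rw [one_smul]
          have := hdn x (by omega)
          omega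
        · have h5 := hdn x (by omega)
          have h6 := hdn (x - z) (by omega)
          have h7 : x - 2 • z = x - z - z := by
            rw [two_smul]
            abel
          rw [h7]
          omega
      rintro ⟨i, x⟩ hix ⟨i', x'⟩ hix' heq
      rw [Finset.mem_coe, Finset.mem_product, hF, Finset.mem_filter] at hix hix'
      have e1 := key x i hix.2.2 i.2
      have e2 := key x' i' hix'.2.2 i'.2
      have heq' : x - (i : ℕ) • z = x' - (i' : ℕ) • z := heq
      rw [heq'] at e1
      have h8 : (i : ℕ) = i' := by omega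
      have h9 : i = i' := Fin.ext h8
      subst h9
      rw [sub_left_inj] at heq'
      rw [heq']
    simpa using h3

end Pool.Agent.U96.EV
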