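import Pool.Agent.U96.EV.Red
import Pool.Agent.U96.EV.Inv
import Pool.Agent.TH669.KS.Eval

set_option autoImplicit false
set_option linter.unusedSectionVars false

/-!
# Blocks: one cyclic group and several elementary abelian `2`-groups of the same size
-/

namespace Pool.Agent.U96.EV

open Finset
open Pool.Agent.TH669.KC (Pr Cl cls cls_surj)
open Pool.Agent.TH669.KS (Vs Js Gs SS adj_same adj_diff)

section blocks

variable (a b : ℕ) (K : Type)

/-- the blocks -/
def Bk : Option K → Type
  | none => ZMod b
  | some _ => Fin a → ZMod 2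

instance instBkA : ∀ i : Option K, AddCommGroup (Bk a b K i)
  | none => inferInstanceAs (AddCommGroup (ZMod b))
  | some _ => inferInstanceAs (AddCommGroup (Fin a → ZMod 2))

instance instBkD : ∀ i : Option K, DecidableEq (Bk a b K i)
  | none => inferInstanceAs (DecidableEq (ZMod b))
  | some _ => inferInstanceAs (DecidableEq (Fin a → ZMod 2))

instance instBkF [NeZero b] : ∀ i : Option K, Fintype (Bk a b K i)
  | none => inferInstanceAs (Fintype (ZMod b))
  | some _ => inferInstanceAs (Fintype (Fin a → ZMod 2))

/-- the sizes of the blocks -/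
def sz : Option K → ℕ := fun i => i.elim b (fun _ => 2 ^ a)

theorem card_Bk [NeZero b] (i : Option K) : Fintype.card (Bk a b K i) = sz a b K i := by
  rcases i with _ | k
  · exact ZMod.card b
  · show Fintype.card (Fin a → ZMod 2) = 2 ^ a
    rw [Fintype.card_fun, ZMod.card, Fintype.card_fin]

theorem card_Vs [NeZero b] [Fintype K] :
    Fintype.card (Vs (Bk a b K)) = Fintype.card K * 2 ^ a + b := by
  rw [Fintype.card_sigma, Finset.sum_congr rfl fun i _ => card_Bk a b K i, Fintype.sum_option]
  simp [sz]
  ring

variable [DecidableEq K]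

/-- translations of the `2`-groups -/
def gA (p : K × Fin a) : ∀ i, Bk a b K i
  | none => (0 : ZMod b)
  | some k => (if k = p.1 then Pi.single p.2 1 else 0 : Fin a → ZMod 2)

/-- the translation of the cyclic block -/
def gC : ∀ i, Bk a b K i
  | none => (1 : ZMod b)
  | some _ => (0 : Fin a → ZMod 2)

theorem two_gA (p : K × Fin a) : 2 • gA a b K p = 0 := by
  funext i
  rcases i with _ | k
  · show 2 • (0 : ZMod b) = 0
    rw [smul_zero]
  · show 2 • (if k = p.1 then Pi.single p.2 1 else 0 : Fin a → ZMod 2) = 0
    funext l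
    show 2 • ((if k = p.1 then Pi.single p.2 1 else 0 : Fin a → ZMod 2) l) = 0
    rw [nsmul_eq_mul, CharP.cast_eq_zero, zero_mul]

theorem gen [Fintype K] [NeZero b] (t : ∀ i, Bk a b K i) :
    t ∈ AddSubgroup.closure (insert (gC a b K) (Set.range (gA a b K))) := by
  have h1 : t = (show ZMod b from t none).val • gC a b K +
      ∑ p : K × Fin a, ((show Fin a → ZMod 2 from t (some p.1)) p.2).val • gA a b K p := by
    funext i
    rw [Pi.add_apply, Pi.smul_apply, Finset.sum_apply]
    rcases i with _ | k
    · show (show ZMod b from t none) = (show ZMod b from t none).val • (1 : ZMod b) +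
        ∑ p : K × Fin a, ((show Fin a → ZMod 2 from t (some p.1)) p.2).val • (0 : ZMod b)
      simp only [smul_zero, Finset.sum_const_zero, add_zero, nsmul_eq_mul, mul_one]
      exact (ZMod.natCast_zmod_val _).symm
    · show (show Fin a → ZMod 2 from t (some k)) = (show ZMod b from t none).val •
        (0 : Fin a → ZMod 2) + ∑ p : K × Fin a, ((show Fin a → ZMod 2 from t (some p.1)) p.2).val •
          (if k = p.1 then Pi.single p.2 1 else 0 : Fin a → ZMod 2)
      rw [smul_zero, zero_add, Fintype.sum_prod_type, Finset.sum_eq_single k]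
      · funext l
        rw [Finset.sum_apply, Finset.sum_eq_single l]
        · simp
        · intro i _ hi
          simp [Ne.symm hi]
        · intro h
          exact absurd (Finset.mem_univ _) h
      · intro k' _ hk
        refine Finset.sum_eq_zero fun i _ => ?_
        rw [if_neg (Ne.symm hk), smul_zero]
      · intro h
        exact absurd (Finset.mem_univ _) h
  rw [h1]
  refine AddSubgroup.add_mem _ (AddSubgroup.nsmul_mem _ (AddSubgroup.subset_closure
    (Set.mem_insert _ _)) _) (AddSubgroup.sum_mem _ fun i0 _ => AddSubgroup.nsmul_mem _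
    (AddSubgroup.subset_closure (Set.mem_insert_of_mem _ (Set.mem_range_self _))) _)

end blocks

/-! ### two halves of a `2`-group -/

theorem halves {a h : ℕ} (hh : 2 * h = 2 ^ a) (z : Fin a → ZMod 2) (hz : z ≠ 0) :
    ∃ e : (Fin a → ZMod 2) ≃ Bool × Fin h,
      ∀ x x' j, e x = (true, j) → e x' = (false, j) → x - x' = z := by
  classical
  obtain ⟨i, hi⟩ : ∃ i, z i ≠ 0 := by
    by_contra hcon
    push Not at hcon
    exact hz (funext hcon)
  have h01 : ∀ c : ZMod 2, c = 0 ∨ c = 1 := by decide
  have h1 : z i = 1 := (h01 (z i)).resolve_left hi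
  have h10 : (1 : ZMod 2) ≠ 0 := by decide
  let R := {x : Fin a → ZMod 2 // x i = 0}
  let F : Bool × R → (Fin a → ZMod 2) := fun p => if p.1 = true then p.2.1 + z else p.2.1
  have hF0 : ∀ r : R, F (false, r) = r.1 := fun r => by simp [F]
  have hF1 : ∀ r : R, F (true, r) = r.1 + z := fun r => by simp [F]
  have hF : Function.Bijective F := by
    constructor
    · rintro ⟨_ | _, r⟩ ⟨_ | _, r'⟩ h
      · rw [hF0, hF0] at h
        rw [Subtype.ext h]
      · exfalso
        rw [hF0, hF1] at h
        have := congrFun h i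
        rw [Pi.add_apply, r.2, r'.2, h1, zero_add] at this
        exact h10 this.symm
      · exfalso
        rw [hF0, hF1] at h
        have := congrFun h i
        rw [Pi.add_apply, r.2, r'.2, h1, zero_add] at this
        exact h10 this
      · rw [hF1, hF1] at h
        rw [Subtype.ext (add_right_cancel h)]
    · intro x
      rcases h01 (x i) with h2 | h2
      · exact ⟨(false, ⟨x, h2⟩), hF0 _⟩
      · refine ⟨(true, ⟨x - z, ?_⟩), ?_⟩
        · rw [Pi.sub_apply, h2, h1, sub_self]
        · rw [hF1]
          exact sub_add_cancel x z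
  have hcard : Fintype.card R = h := by
    have h2 := Fintype.card_of_bijective hF
    rw [Fintype.card_prod, Fintype.card_bool, Fintype.card_fun, ZMod.card, Fintype.card_fin] at h2
    omega
  let eR : R ≃ Fin h := Fintype.equivFinOfCardEq hcard
  let e : (Fin a → ZMod 2) ≃ Bool × Fin h :=
    (Equiv.ofBijective F hF).symm.trans (Equiv.prodCongr (Equiv.refl Bool) eR)
  refine ⟨e, ?_⟩
  intro x x' j hx hx'
  have e1 : x = F (true, eR.symm j) := by
    have h2 : x = e.symm (true, j) := by rw [← hx, Equiv.symm_apply_apply]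
    rw [h2]
    rfl
  have e2 : x' = F (false, eR.symm j) := by
    have h2 : x' = e.symm (false, j) := by rw [← hx', Equiv.symm_apply_apply]
    rw [h2]
    rfl
  rw [e1, e2, hF0, hF1]
  abel

theorem halves' {a h : ℕ} (hh : 2 * h = 2 ^ a) :
    Nonempty ((Fin a → ZMod 2) ≃ Bool × Fin h) := by
  refine ⟨Fintype.equivOfCardEq ?_⟩
  rw [Fintype.card_prod, Fintype.card_bool, Fintype.card_fun, ZMod.card, Fintype.card_fin,
    Fintype.card_fin, hh]

/-- partial injections -/
theorem partial_inj {X Y : Type} [Fintype X] [DecidableEq X] [Fintype Y] [DecidableEq Y] (d : ℕ)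
    (h1 : Fintype.card X ≤ Fintype.card Y + d) (h2 : Fintype.card Y ≤ Fintype.card X + d) :
    ∃ p : X → Option Y, (∀ x x' y, p x = some y → p x' = some y → x = x') ∧
      (univ.filter fun x => p x = none).card + (univ.filter fun y => ∀ x, p x ≠ some y).card ≤ d := by
  classical
  rcases le_total (Fintype.card X) (Fintype.card Y) with h | h
  · obtain ⟨f⟩ := Function.Embedding.nonempty_of_card_le h
    refine ⟨fun x => some (f x), ?_, ?_⟩
    · intro x x' y hx hx'
      simp only [Option.some.injEq] at hx hx'
      exact f.injective (by rw [hx, hx'])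
    · have e1 : (univ.filter fun x => (fun x => some (f x)) x = (none : Option Y)) = ∅ := by
        ext x
        simp
      have e2 : (univ.filter fun y => ∀ x, some (f x) ≠ some y) = (univ.map f)ᶜ := by
        ext y
        simp
      rw [e1, e2, Finset.card_compl, Finset.card_map, Finset.card_empty, Finset.card_univ]
      omega
  · obtain ⟨g⟩ := Function.Embedding.nonempty_of_card_le h
    refine ⟨fun x => if hx : ∃ y, g y = x then some hx.choose else none, ?_, ?_⟩
    · intro x x' y hx hx'
      have key : ∀ x, (if hx : ∃ y, g y = x then some hx.choose else none) = some y → g y = x := by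
        intro x h3
        by_cases h4 : ∃ y, g y = x
        · rw [dif_pos h4, Option.some.injEq] at h3
          rw [← h3]
          exact h4.choose_spec
        · rw [dif_neg h4] at h3
          cases h3
      rw [← key x hx, ← key x' hx']
    · have e1 : (univ.filter fun x => (if hx : ∃ y, g y = x then some hx.choose else none) =
          (none : Option Y)) = (univ.map g)ᶜ := by
        ext x
        rw [Finset.mem_filter, Finset.mem_compl, Finset.mem_map]
        by_cases h4 : ∃ y, g y = x
        · rw [dif_pos h4]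
          simp only [Finset.mem_univ, true_and]
          obtain ⟨y, hy⟩ := h4
          constructor
          · intro h5
            cases h5
          · intro h5
            exact absurd ⟨y, hy⟩ h5
        · rw [dif_neg h4]
          simp only [Finset.mem_univ, true_and, true_iff]
          exact h4
      have e2 : (univ.filter fun y => ∀ x, (if hx : ∃ y, g y = x then some hx.choose else none) ≠
          some y) = ∅ := by
        ext y
        simp only [Finset.mem_filter, Finset.mem_univ, true_and, Finset.notMem_empty, iff_false,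
          not_forall, not_not]
        refine ⟨g y, ?_⟩
        have h4 : ∃ y', g y' = g y := ⟨y, rfl⟩
        rw [dif_pos h4]
        exact congrArg some (g.injective h4.choose_spec)
      rw [e1, e2, Finset.card_compl, Finset.card_map, Finset.card_empty, Finset.card_univ]
      omega

section real

variable {a b : ℕ} [NeZero b] {K : Type} [Fintype K] [DecidableEq K]

/-- two blocks that are adjacent are completely adjacent -/
theorem adj_of_psi (χ : Js (Bk a b K) → Bool) {i j : Option K} (hij : i ≠ j)
    (h : psi χ s(i, j) = true) (x : Bk a b K i) (y : Bk a b K j) : (Gs χ).Adj ⟨i, x⟩ ⟨j, y⟩ := by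
  rw [adj_diff χ hij]
  unfold psi at h
  rwa [mkL_ne _ _ hij] at h

theorem psi_of_adj (χ : Js (Bk a b K) → Bool) {i j : Option K} {x : Bk a b K i} {y : Bk a b K j}
    (h : (Gs χ).Adj ⟨i, x⟩ ⟨j, y⟩) : psi χ s(i, j) = true := by
  by_cases hij : i = j
  · subst hij
    rw [adj_same] at h
    obtain ⟨d, _, hd⟩ := h
    unfold psi
    rw [mkL_self]
    exact ⟨d, hd⟩
  · rw [adj_diff χ hij] at h
    unfold psi
    rwa [mkL_ne _ _ hij]

/-- a looped block -/
theorem loop_of_psi (χ : Js (Bk a b K) → Bool) {i : Option K} (h : psi χ s(i, i) = true) :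
    ∃ z : Bk a b K i, z ≠ 0 ∧ ∀ x y : Bk a b K i, x - y = z → (Gs χ).Adj ⟨i, x⟩ ⟨i, y⟩ := by
  unfold psi at h
  rw [mkL_self] at h
  obtain ⟨d, hd⟩ := h
  obtain ⟨z, hz⟩ := cls_surj d
  refine ⟨z, ?_, ?_⟩
  · rintro rfl
    rw [Pool.Agent.TH669.KC.cls_zero] at hz
    cases hz
  · intro x y hxy
    rw [adj_same]
    exact ⟨d, by rw [hxy]; exact hz, hd⟩

/-- **The matching.** -/
theorem real {T Z : Type} [Fintype T] [DecidableEq T] [Fintype Z] [DecidableEq Z] {h : ℕ}
    (hh : 2 * h = 2 ^ a) (χ : Js (Bk a b K) → Bool) (π : Equiv.Perm T) (o : T → Option K)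
    (ι : K → T) (hι : ∀ k, o (ι k) = some k) (hι' : ∀ t k, o t = some k → t = ι k)
    (hπ : ∀ t, psi χ s(o t, o (π t)) = true) (hπn : ∀ t, o t = none → o (π t) ≠ none)
    (mz : Z → Z) (hz : ∀ z, mz (mz z) = z)
    (pB : ZMod b → Option ((T × (Bool × Fin h)) ⊕ Z))
    (hpo : ∀ x t y, pB x = some (.inl (t, y)) → o t = none)
    (hpi : ∀ x x' w, pB x = some w → pB x' = some w → x = x')
    (hpz : ∀ (x x' : ZMod b) z, pB x = some (.inr z) → pB x' = some (.inr (mz z)) →
      (Gs χ).Adj ⟨none, x⟩ ⟨none, x'⟩) (d : ℕ)
    (hd : (univ.filter fun x => pB x = none).card +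
      (univ.filter fun w : (T × (Bool × Fin h)) ⊕ Z =>
        (∀ t y, w = .inl (t, y) → o t = none) ∧ ∀ x, pB x ≠ some w).card ≤ d) :
    Mt (Gs χ) d := by
  classical
  have he : ∀ k : K, ∃ e : (Fin a → ZMod 2) ≃ Bool × Fin h, psi χ s(some k, some k) = true →
      ∀ (x x' : Fin a → ZMod 2) j, e x = (true, j) → e x' = (false, j) →
        (Gs χ).Adj ⟨some k, x⟩ ⟨some k, x'⟩ := by
    intro k
    by_cases hk : psi χ s(some k, some k) = true
    · obtain ⟨z, hz0, hzadj⟩ := loop_of_psi χ hk
      obtain ⟨e, he⟩ := halves hh z hz0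
      exact ⟨e, fun _ x x' j h1 h2 => hzadj x x' (he x x' j h1 h2)⟩
    · obtain ⟨e⟩ := halves' hh
      exact ⟨e, fun h1 => absurd h1 hk⟩
  choose e he using he
  let ρ : Vs (Bk a b K) → Option ((T × (Bool × Fin h)) ⊕ Z) := fun v => match v with
    | ⟨none, x⟩ => pB x
    | ⟨some k, x⟩ => some (.inl (ι k, e k x))
  have r0 : ∀ x : ZMod b, ρ ⟨none, x⟩ = pB x := fun _ => rfl
  have r1 : ∀ (k : K) (x : Fin a → ZMod 2), ρ ⟨some k, x⟩ = some (.inl (ι k, e k x)) :=
    fun _ _ => rfl
  have hιinj : ∀ k k', ι k = ι k' → k = k' := by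
    intro k k' h1
    have := congrArg o h1
    rw [hι, hι] at this
    exact Option.some.inj this
  refine virt2 (Gs χ) π mz hz ρ ?_ ?_ ?_ d ?_
  · rintro ⟨_ | k, x⟩ ⟨_ | k', x'⟩ w h1 h2
    · rw [hpi x x' w h1 h2]
    · exfalso
      have h2' : some (.inl (ι k', e k' x')) = some w := h2
      have h1' : pB x = some (.inl (ι k', e k' x')) := by rw [h2']; exact h1
      have := hpo _ _ _ h1'
      rw [hι] at this
      cases this
    · exfalso
      have h1' : some (.inl (ι k, e k x)) = some w := h1
      have h2' : pB x' = some (.inl (ι k, e k x)) := by rw [h1']; exact h2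
      have := hpo _ _ _ h2'
      rw [hι] at this
      cases this
    · have h3 : (some (.inl (ι k, e k x)) : Option ((T × (Bool × Fin h)) ⊕ Z)) =
        some (.inl (ι k', e k' x')) := by
        have h1' : some (.inl (ι k, e k x)) = some w := h1
        have h2' : some (.inl (ι k', e k' x')) = some w := h2
        rw [h1', h2']
      simp only [Option.some.injEq, Sum.inl.injEq, Prod.mk.injEq] at h3
      have hk := hιinj _ _ h3.1
      subst hk
      rw [(e k).injective h3.2]
  · rintro ⟨_ | k, x⟩ ⟨_ | k', x'⟩ t j h1 h2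
    · exact absurd (hpo _ _ _ h2) (hπn t (hpo _ _ _ h1))
    · have h3 := hpo _ _ _ h1
      have h2' : (some (.inl (ι k', e k' x')) : Option ((T × (Bool × Fin h)) ⊕ Z)) =
        some (.inl (π t, (false, j))) := h2
      simp only [Option.some.injEq, Sum.inl.injEq, Prod.mk.injEq] at h2'
      refine adj_of_psi χ (by simp) ?_ _ _
      have := hπ t
      rwa [h3, ← h2'.1, hι] at this
    · have h3 := hpo _ _ _ h2
      have h1' : (some (.inl (ι k, e k x)) : Option ((T × (Bool × Fin h)) ⊕ Z)) =
        some (.inl (t, (true, j))) := h1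
      simp only [Option.some.injEq, Sum.inl.injEq, Prod.mk.injEq] at h1'
      refine adj_of_psi χ (by simp) ?_ _ _
      have := hπ t
      rwa [h3, ← h1'.1, hι] at this
    · have h1' : (some (.inl (ι k, e k x)) : Option ((T × (Bool × Fin h)) ⊕ Z)) =
        some (.inl (t, (true, j))) := h1
      have h2' : (some (.inl (ι k', e k' x')) : Option ((T × (Bool × Fin h)) ⊕ Z)) =
        some (.inl (π t, (false, j))) := h2
      simp only [Option.some.injEq, Sum.inl.injEq, Prod.mk.injEq] at h1' h2'
      have h4 := hπ t
      rw [← h2'.1, ← h1'.1, hι, hι] at h4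
      by_cases hk : k = k'
      · subst hk
        exact he k h4 x x' j h1'.2 h2'.2
      · exact adj_of_psi χ (by simpa using hk) h4 _ _
  · rintro ⟨_ | k, x⟩ ⟨_ | k', x'⟩ z h1 h2
    · exact hpz x x' z h1 h2
    · have h2' : (some (.inl (ι k', e k' x')) : Option ((T × (Bool × Fin h)) ⊕ Z)) =
        some (.inr (mz z)) := h2
      simp at h2'
    · have h1' : (some (.inl (ι k, e k x)) : Option ((T × (Bool × Fin h)) ⊕ Z)) =
        some (.inr z) := h1
      simp at h1'
    · have h1' : (some (.inl (ι k, e k x)) : Option ((T × (Bool × Fin h)) ⊕ Z)) =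
        some (.inr z) := h1
      simp at h1'
  · refine le_trans (Nat.add_le_add ?_ ?_) hd
    · refine (Finset.card_le_card (t := (univ.filter fun x : ZMod b => pB x = none).image
        fun x => (⟨none, x⟩ : Vs (Bk a b K))) ?_).trans Finset.card_image_le
      rintro ⟨_ | k, x⟩ hv
      · rw [Finset.mem_filter] at hv
        exact Finset.mem_image.2 ⟨x, Finset.mem_filter.2 ⟨Finset.mem_univ _, hv.2⟩, rfl⟩
      · rw [Finset.mem_filter, r1] at hv
        cases hv.2
    · refine Finset.card_le_card ?_
      intro w hw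
      rw [Finset.mem_filter] at hw ⊢
      refine ⟨Finset.mem_univ _, ?_, fun x => hw.2 ⟨none, x⟩⟩
      rintro t y rfl
      rcases h3 : o t with _ | k
      · rfl
      · exfalso
        have h4 := hι' t k h3
        apply hw.2 ⟨some k, (e k).symm y⟩
        rw [r1, Equiv.apply_symm_apply, h4]

end real

end Pool.Agent.U96.EV
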