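import Pool.Agent.TH669.KP.Sign

set_option autoImplicit false
set_option linter.unusedSectionVars false

/-!
# The signed number of looped graphs with Hall's property

For graphs with loops on a finite set and a capacity `cap j ≥ 1` of every vertex: the signed number of
the graphs in which every independent set `X` without loops has neighbours of total capacity at least
`|X|` is `(-1) ^ |I|`.
-/

namespace Pool.Agent.U96.EV

open Finset
open Pool.Agent.TH669.KP (sgn bit bit_pos bit_neg bit_congr bit_and bit_not toggle_zero)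

section key

variable {I : Type} [Fintype I] [DecidableEq I] (cap : I → ℕ)

/-- neighbours of a set -/
def Nb (χ : Sym2 I → Bool) (X : Finset I) : Finset I :=
  univ.filter fun j => ∃ x ∈ X, χ s(x, j) = true

theorem mem_Nb {χ : Sym2 I → Bool} {X : Finset I} {j : I} :
    j ∈ Nb χ X ↔ ∃ x ∈ X, χ s(x, j) = true := by
  simp [Nb]

/-- independent sets without loops -/
def Ind (χ : Sym2 I → Bool) (X : Finset I) : Prop := ∀ x ∈ X, ∀ y ∈ X, χ s(x, y) = false

/-- total capacity -/
def cp (X : Finset I) : ℕ := ∑ j ∈ X, cap j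

/-- Hall's property on `S` -/
def Hl (S : Finset I) (χ : Sym2 I → Bool) : Prop :=
  ∀ X ⊆ S, Ind χ X → X.card ≤ cp cap (Nb χ X)

/-- all edges and loops are in `S` -/
def Sp (S : Finset I) (χ : Sym2 I → Bool) : Prop := ∀ x y, χ s(x, y) = true → x ∈ S

theorem Ind.mono {χ : Sym2 I → Bool} {X Y : Finset I} (h : Ind χ Y) (hXY : X ⊆ Y) : Ind χ X :=
  fun x hx y hy => h x (hXY hx) y (hXY hy)

theorem Nb_mono {χ : Sym2 I → Bool} {X Y : Finset I} (hXY : X ⊆ Y) : Nb χ X ⊆ Nb χ Y := by
  intro j hj
  rw [mem_Nb] at hj ⊢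
  obtain ⟨x, hx, h⟩ := hj
  exact ⟨x, hXY hx, h⟩

variable {cap}

theorem cp_mono {X Y : Finset I} (h : X ⊆ Y) : cp cap X ≤ cp cap Y :=
  Finset.sum_le_sum_of_subset h

theorem cp_union {X Y : Finset I} (h : Disjoint X Y) : cp cap (X ∪ Y) = cp cap X + cp cap Y :=
  Finset.sum_union h

theorem card_le_cp (hcap : ∀ j, 1 ≤ cap j) (X : Finset I) : X.card ≤ cp cap X := by
  rw [Finset.card_eq_sum_ones]
  exact Finset.sum_le_sum fun j _ => hcap j

theorem uncross (hcap : ∀ j, 1 ≤ cap j) {χ : Sym2 I → Bool} {S : Finset I} {u : I}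
    (h1 : ∀ X ⊆ S, u ∉ X → Ind χ X → X.card ≤ cp cap (Nb χ X))
    {Y : Finset I} (hYS : Y ⊆ S) (hY : Ind χ Y) (ht : cp cap (Nb χ Y) ≤ Y.card)
    (hu : u ∈ Nb χ Y) {X : Finset I} (hXS : X ⊆ S) (hX : Ind χ X) :
    X.card ≤ cp cap (Nb χ X) := by
  classical
  have huY : u ∉ Y := by
    intro h
    rw [mem_Nb] at hu
    obtain ⟨y, hy, h2⟩ := hu
    rw [hY y hy u h] at h2
    cases h2
  set X1 := X ∩ Nb χ Y with hX1
  set X2 := X \ Nb χ Y with hX2
  set K := Y ∩ Nb χ X1 with hK
  have a1 : (Y \ K).card ≤ cp cap (Nb χ (Y \ K)) :=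
    h1 _ (Finset.sdiff_subset.trans hYS) (fun h => huY (Finset.mem_sdiff.1 h).1)
      (hY.mono Finset.sdiff_subset)
  have a2 : Nb χ (Y \ K) ⊆ Nb χ Y \ X1 := by
    intro j hj
    rw [Finset.mem_sdiff]
    refine ⟨Nb_mono Finset.sdiff_subset hj, fun hj1 => ?_⟩
    rw [mem_Nb] at hj
    obtain ⟨y, hy, h2⟩ := hj
    rw [Finset.mem_sdiff] at hy
    apply hy.2
    rw [hK, Finset.mem_inter, mem_Nb]
    exact ⟨hy.1, j, hj1, by rw [Sym2.eq_swap]; exact h2⟩
  have a3 : cp cap (Nb χ Y \ X1) + cp cap X1 = cp cap (Nb χ Y) := by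
    rw [← cp_union Finset.sdiff_disjoint, Finset.sdiff_union_of_subset Finset.inter_subset_right]
  have a4 := card_le_cp hcap X1
  have a5 : (Y \ K).card + K.card = Y.card :=
    Finset.card_sdiff_add_card_eq_card Finset.inter_subset_left
  have a6 := cp_mono (cap := cap) a2
  have a7 : X1.card ≤ K.card := by omega
  have b1 : X2.card ≤ cp cap (Nb χ X2) :=
    h1 _ (Finset.sdiff_subset.trans hXS) (fun h => (Finset.mem_sdiff.1 h).2 hu)
      (hX.mono Finset.sdiff_subset)
  have b2 : Disjoint (Nb χ X2) K := by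
    rw [Finset.disjoint_left]
    intro k hk hkK
    rw [mem_Nb] at hk
    obtain ⟨x, hx, h2⟩ := hk
    rw [hX2, Finset.mem_sdiff] at hx
    apply hx.2
    rw [mem_Nb]
    exact ⟨k, (Finset.mem_inter.1 hkK).1, by rw [Sym2.eq_swap]; exact h2⟩
  have b3 : Nb χ X2 ∪ K ⊆ Nb χ X :=
    Finset.union_subset (Nb_mono Finset.sdiff_subset)
      (Finset.inter_subset_right.trans (Nb_mono Finset.inter_subset_left))
  have b4 := cp_mono (cap := cap) b3
  rw [cp_union b2] at b4
  have b5 := card_le_cp hcap K
  have b6 : X2.card + X1.card = X.card := by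
    rw [hX2, hX1, ← Finset.card_union_of_disjoint]
    · rw [Finset.sdiff_union_inter]
    · exact Finset.disjoint_sdiff_inter X (Nb χ Y)
  omega

/-! ### one more vertex -/

theorem bit3 (a b c : Prop) : bit (a ∧ b ∧ c) = bit (a ∧ b) - bit (a ∧ b ∧ ¬ c) := by
  rw [bit_and, bit_and, bit_and, bit_and, bit_and, bit_not]
  ring

/-- condition for sets without the last vertex -/
def C0 (cap : I → ℕ) (t : I) (S : Finset I) (χ : Sym2 I → Bool) : Prop :=
  ∀ Y ⊆ S, Ind χ Y → Disjoint Y (Nb χ {t}) → Y.card + 1 ≤ cp cap (Nb χ Y ∪ Nb χ {t})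

theorem upd_of {χ : Sym2 I → Bool} {u x y : I} (c : Bool) (h : x ≠ u ∨ y ≠ u) :
    Function.update χ s(u, u) c s(x, y) = χ s(x, y) := by
  rw [Function.update_of_ne]
  rw [Ne, Sym2.eq_iff]
  rintro (⟨rfl, rfl⟩ | ⟨rfl, rfl⟩) <;> simp at h

theorem Ind_upd {χ : Sym2 I → Bool} {u : I} {c : Bool} {X : Finset I} (h : u ∉ X) :
    Ind (Function.update χ s(u, u) c) X ↔ Ind χ X := by
  have h1 : ∀ x ∈ X, ∀ y ∈ X, Function.update χ s(u, u) c s(x, y) = χ s(x, y) := by
    intro x hx y _
    exact upd_of c (Or.inl fun hxu => h (hxu ▸ hx))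
  constructor
  · intro h2 x hx y hy
    rw [← h1 x hx y hy]
    exact h2 x hx y hy
  · intro h2 x hx y hy
    rw [h1 x hx y hy]
    exact h2 x hx y hy

theorem Nb_upd {χ : Sym2 I → Bool} {u : I} {c : Bool} {X : Finset I} (h : u ∉ X) :
    Nb (Function.update χ s(u, u) c) X = Nb χ X := by
  ext j
  rw [mem_Nb, mem_Nb]
  constructor
  · rintro ⟨x, hx, h2⟩
    rw [upd_of c (Or.inl (by rintro rfl; exact h hx))] at h2
    exact ⟨x, hx, h2⟩
  · rintro ⟨x, hx, h2⟩
    refine ⟨x, hx, ?_⟩
    rw [upd_of c (Or.inl (by rintro rfl; exact h hx))]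
    exact h2

theorem Sp_upd {χ : Sym2 I → Bool} {u : I} {c : Bool} {S : Finset I} (h : u ∈ S) :
    Sp S (Function.update χ s(u, u) c) ↔ Sp S χ := by
  have key : ∀ (χ : Sym2 I → Bool) (c : Bool), Sp S χ → Sp S (Function.update χ s(u, u) c) := by
    intro χ c hS x y hxy
    by_cases h2 : x = u
    · rw [h2]; exact h
    · rw [upd_of c (Or.inl h2)] at hxy
      exact hS x y hxy
  refine ⟨fun h2 => ?_, key χ c⟩
  have := key _ (χ s(u, u)) h2
  rwa [Function.update_idem, Function.update_eq_self] at this

theorem Hl_true {χ : Sym2 I → Bool} {t : I} {S : Finset I} (ht : t ∉ S) :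
    Hl cap (insert t S) (Function.update χ s(t, t) true) ↔ Hl cap S χ := by
  constructor
  · intro h X hX hI
    have htX : t ∉ X := fun h => ht (hX h)
    have := h X (hX.trans (Finset.subset_insert _ _)) ((Ind_upd htX).2 hI)
    rwa [Nb_upd htX] at this
  · intro h X hX hI
    have htX : t ∉ X := by
      intro htX
      have := hI t htX t htX
      rw [Function.update_self] at this
      cases this
    rw [Nb_upd htX]
    refine h X (fun x hx => ?_) ((Ind_upd htX).1 hI)
    rcases Finset.mem_insert.1 (hX hx) with rfl | h2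
    · exact absurd hx htX
    · exact h2

theorem Hl_false {χ : Sym2 I → Bool} {t : I} {S : Finset I} (ht : t ∉ S)
    (htt : χ s(t, t) = false) :
    Hl cap (insert t S) χ ↔ Hl cap S χ ∧ C0 cap t S χ := by
  constructor
  · intro h
    refine ⟨fun X hX hI => h X (hX.trans (Finset.subset_insert _ _)) hI, ?_⟩
    intro Y hY hI hd
    have htY : t ∉ Y := fun h => ht (hY h)
    have hnt : ∀ y ∈ Y, χ s(t, y) = false := by
      intro y hy
      by_contra hc
      rw [Bool.not_eq_false] at hc
      exact Finset.disjoint_left.1 hd hy (mem_Nb.2 ⟨t, Finset.mem_singleton_self t, hc⟩)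
    have h1 := h (insert t Y) (Finset.insert_subset_insert _ hY) (by
      intro x hx y hy
      rcases Finset.mem_insert.1 hx with hx | hx
      · rcases Finset.mem_insert.1 hy with hy | hy
        · rw [hx, hy]
          exact htt
        · rw [hx]
          exact hnt y hy
      · rcases Finset.mem_insert.1 hy with hy | hy
        · rw [hy, Sym2.eq_swap]
          exact hnt x hx
        · exact hI x hx y hy)
    rw [Finset.card_insert_of_notMem htY] at h1
    refine h1.trans (cp_mono ?_)
    intro j hj
    rw [mem_Nb] at hj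
    obtain ⟨x, hx, h2⟩ := hj
    rcases Finset.mem_insert.1 hx with rfl | hx
    · exact Finset.mem_union_right _ (mem_Nb.2 ⟨x, Finset.mem_singleton_self x, h2⟩)
    · exact Finset.mem_union_left _ (mem_Nb.2 ⟨x, hx, h2⟩)
  · rintro ⟨h1, h2⟩ X hX hI
    by_cases htX : t ∈ X
    · have hY : X.erase t ⊆ S := by
        intro x hx
        rw [Finset.mem_erase] at hx
        rcases Finset.mem_insert.1 (hX hx.2) with h3 | h3
        · exact absurd h3 hx.1
        · exact h3
      have h3 := h2 (X.erase t) hY (hI.mono (Finset.erase_subset _ _)) (by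
        rw [Finset.disjoint_left]
        intro y hy hyt
        rw [mem_Nb] at hyt
        obtain ⟨x, hx, h4⟩ := hyt
        rw [Finset.mem_singleton] at hx
        subst hx
        rw [hI x htX y (Finset.mem_of_mem_erase hy)] at h4
        cases h4)
      rw [Finset.card_erase_add_one htX] at h3
      refine h3.trans (cp_mono (Finset.union_subset (Nb_mono (Finset.erase_subset _ _))
        (Nb_mono ?_)))
      rwa [Finset.singleton_subset_iff]
    · refine h1 X (fun x hx => ?_) hI
      rcases Finset.mem_insert.1 (hX hx) with rfl | h3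
      · exact absurd hx htX
      · exact h3

/-- the invariance under the removal of the loop at a neighbour `u` of `t` -/
theorem inv_loop (hcap : ∀ j, 1 ≤ cap j) {χ : Sym2 I → Bool} {t u : I} {S : Finset I}
    (hut : u ≠ t) (hu : χ s(t, u) = true) :
    (Sp (insert t S) χ ∧ Hl cap S χ ∧ ¬ C0 cap t S χ) ↔
      (Sp (insert t S) (Function.update χ s(u, u) false) ∧
        Hl cap S (Function.update χ s(u, u) false) ∧
        ¬ C0 cap t S (Function.update χ s(u, u) false)) := by
  set χ' := Function.update χ s(u, u) false with hχ'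
  have hu' : χ' s(t, u) = true := by
    rw [hχ', upd_of false (Or.inl (Ne.symm hut))]
    exact hu
  have huT : u ∈ Nb χ {t} := mem_Nb.2 ⟨t, Finset.mem_singleton_self t, hu⟩
  have hNt : Nb χ' {t} = Nb χ {t} := Nb_upd (by simpa using hut)
  have h1 : Sp (insert t S) χ ↔ Sp (insert t S) χ' := by
    constructor
    · intro h
      exact (Sp_upd (h u t (by rw [Sym2.eq_swap]; exact hu))).2 h
    · intro h
      exact (Sp_upd (h u t (by rw [Sym2.eq_swap]; exact hu'))).1 h
  have h2 : C0 cap t S χ ↔ C0 cap t S χ' := by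
    constructor
    · intro h Y hY hI hd
      rw [hNt] at hd ⊢
      have huY : u ∉ Y := fun h3 => Finset.disjoint_left.1 hd h3 huT
      rw [Nb_upd huY]
      exact h Y hY ((Ind_upd huY).1 hI) hd
    · intro h Y hY hI hd
      have huY : u ∉ Y := fun h3 => Finset.disjoint_left.1 hd h3 huT
      have := h Y hY ((Ind_upd huY).2 hI) (by rwa [hNt])
      rwa [hNt, Nb_upd huY] at this
  rw [← h1, ← h2]
  have hle : ∀ x y, χ' s(x, y) = true → χ s(x, y) = true := by
    intro x y hxy
    by_cases h3 : x = u ∧ y = u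
    · obtain ⟨rfl, rfl⟩ := h3
      rw [hχ', Function.update_self] at hxy
      cases hxy
    · rw [hχ', upd_of false (by tauto)] at hxy
      exact hxy
  constructor
  · rintro ⟨a1, a2, a3⟩
    refine ⟨a1, ?_, a3⟩
    unfold C0 at a3
    push Not at a3
    obtain ⟨Y, hY, hI, hd, hlt⟩ := a3
    have huY : u ∉ Y := fun h3 => Finset.disjoint_left.1 hd h3 huT
    have b1 := a2 Y hY hI
    have b2 : u ∈ Nb χ Y := by
      by_contra hc
      have b3 : cp cap (insert u (Nb χ Y)) ≤ cp cap (Nb χ Y ∪ Nb χ {t}) :=
        cp_mono (Finset.insert_subset (Finset.mem_union_right _ huT) Finset.subset_union_left)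
      have b4 : cp cap (insert u (Nb χ Y)) = cap u + cp cap (Nb χ Y) := Finset.sum_insert hc
      have b5 := hcap u
      omega
    have b3 : cp cap (Nb χ Y) ≤ Y.card := by
      have := cp_mono (cap := cap) (Finset.subset_union_left (s₁ := Nb χ Y) (s₂ := Nb χ {t}))
      omega
    have hI' : Ind χ' Y := (Ind_upd huY).2 hI
    have hN' : Nb χ' Y = Nb χ Y := Nb_upd huY
    intro X hX hIX
    refine uncross hcap (u := u) ?_ hY hI' (by rw [hN']; exact b3) (by rw [hN']; exact b2) hX hIX
    intro X hX huX hIX
    rw [Nb_upd huX]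
    exact a2 X hX ((Ind_upd huX).1 hIX)
  · rintro ⟨a1, a2, a3⟩
    refine ⟨a1, ?_, a3⟩
    intro X hX hIX
    refine (a2 X hX ?_).trans (cp_mono ?_)
    · intro x hx y hy
      by_contra hc
      rw [Bool.not_eq_false] at hc
      have := hle x y hc
      rw [hIX x hx y hy] at this
      cases this
    · intro j hj
      rw [mem_Nb] at hj ⊢
      obtain ⟨x, hx, h3⟩ := hj
      exact ⟨x, hx, hle x j h3⟩

variable (cap)

/-- the summand -/
noncomputable def Fs (S : Finset I) (χ : Sym2 I → Bool) : ℤ := bit (Sp S χ ∧ Hl cap S χ)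

variable {cap}

/-- one more vertex changes the sign -/
theorem step (hcap : ∀ j, 1 ≤ cap j) {t : I} {S : Finset I} (ht : t ∉ S) :
    ∑ χ : Sym2 I → Bool, sgn χ * Fs cap (insert t S) χ =
      - ∑ χ : Sym2 I → Bool, sgn χ * Fs cap S χ := by
  classical
  set G : (Sym2 I → Bool) → ℤ := fun χ => Fs cap (insert t S) χ -
    Fs cap (insert t S) (Function.update χ s(t, t) true) + Fs cap S χ with hG
  have hr : ∑ χ : Sym2 I → Bool,
      sgn χ * Fs cap (insert t S) (Function.update χ s(t, t) true) = 0 :=
    toggle_zero (fun χ => Fs cap (insert t S) (Function.update χ s(t, t) true)) s(t, t)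
      fun χ => by simp only [Function.update_idem]
  have hsum : ∑ χ : Sym2 I → Bool, sgn χ * G χ =
      ∑ χ : Sym2 I → Bool, sgn χ * Fs cap (insert t S) χ +
        ∑ χ : Sym2 I → Bool, sgn χ * Fs cap S χ := by
    have h1 : ∀ χ : Sym2 I → Bool, sgn χ * G χ = sgn χ * Fs cap (insert t S) χ -
        sgn χ * Fs cap (insert t S) (Function.update χ s(t, t) true) + sgn χ * Fs cap S χ := by
      intro χ
      rw [hG]
      ring
    rw [Finset.sum_congr rfl fun χ _ => h1 χ, Finset.sum_add_distrib, Finset.sum_sub_distrib, hr,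
      sub_zero]
  have hFt : ∀ χ : Sym2 I → Bool, Fs cap (insert t S) (Function.update χ s(t, t) true) =
      bit (Sp (insert t S) χ ∧ Hl cap S χ) := by
    intro χ
    refine bit_congr ?_
    rw [Sp_upd (Finset.mem_insert_self t S), Hl_true ht]
  have hSne : ∀ (χ : Sym2 I → Bool) (u : I), χ s(t, u) = true → Fs cap S χ = 0 := by
    intro χ u hu
    exact bit_neg fun h => ht (h.1 t u hu)
  -- the value of `G`
  have G1 : ∀ χ : Sym2 I → Bool, χ s(t, t) = true → G χ = 0 := by
    intro χ h
    have h1 : Function.update χ s(t, t) true = χ := by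
      rw [← h, Function.update_eq_self]
    simp only [hG]
    rw [h1, hSne χ t h]
    ring
  have G2 : ∀ χ : Sym2 I → Bool, χ s(t, t) = false → G χ =
      - bit (Sp (insert t S) χ ∧ Hl cap S χ ∧ ¬ C0 cap t S χ) + Fs cap S χ := by
    intro χ h
    simp only [hG]
    rw [hFt]
    unfold Fs
    rw [bit_congr (and_congr_right fun _ => Hl_false (cap := cap) ht h)]
    have := bit3 (Sp (insert t S) χ) (Hl cap S χ) (C0 cap t S χ)
    linarith
  have G3 : ∀ χ : Sym2 I → Bool, Nb χ {t} = ∅ → G χ = 0 := by
    intro χ h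
    have h0 : ∀ j, χ s(t, j) = false := by
      intro j
      by_contra hc
      rw [Bool.not_eq_false] at hc
      have : j ∈ Nb χ {t} := mem_Nb.2 ⟨t, Finset.mem_singleton_self t, hc⟩
      rw [h] at this
      simp at this
    rw [G2 χ (h0 t)]
    have h1 : Sp (insert t S) χ ↔ Sp S χ := by
      constructor
      · intro h2 x y hxy
        rcases Finset.mem_insert.1 (h2 x y hxy) with rfl | h3
        · rw [h0 y] at hxy
          cases hxy
        · exact h3
      · intro h2 x y hxy
        exact Finset.mem_insert_of_mem (h2 x y hxy)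
    have h2 : ¬ C0 cap t S χ := by
      intro h3
      have := h3 ∅ (Finset.empty_subset _) (fun x hx => by simp at hx) (by simp)
      rw [h] at this
      have h4 : Nb χ (∅ : Finset I) = ∅ := by
        ext j
        simp [mem_Nb]
      rw [h4] at this
      simp [cp] at this
    unfold Fs
    rw [bit_congr (show (Sp (insert t S) χ ∧ Hl cap S χ ∧ ¬ C0 cap t S χ) ↔ (Sp S χ ∧ Hl cap S χ)
      from ⟨fun h => ⟨h1.1 h.1, h.2.1⟩, fun h => ⟨h1.2 h.1, h.2, h2⟩⟩)]
    ring
  have G4 : ∀ (χ : Sym2 I → Bool) (u : I), χ s(t, t) = false → u ≠ t → χ s(t, u) = true →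
      G χ = G (Function.update χ s(u, u) false) := by
    intro χ u h1 hut hu
    have h1' : Function.update χ s(u, u) false s(t, t) = false := by
      rw [upd_of false (Or.inl (Ne.symm hut))]
      exact h1
    have hu' : Function.update χ s(u, u) false s(t, u) = true := by
      rw [upd_of false (Or.inl (Ne.symm hut))]
      exact hu
    rw [G2 χ h1, G2 _ h1', hSne χ u hu, hSne _ u hu', bit_congr (inv_loop hcap hut hu)]
  have hzero : ∑ χ : Sym2 I → Bool, sgn χ * G χ = 0 := by
    have h1 : ∀ χ : Sym2 I → Bool, sgn χ * G χ =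
        ∑ T : Finset I, sgn χ * (G χ * bit (Nb χ {t} = T)) := by
      intro χ
      rw [Finset.sum_eq_single (Nb χ {t})]
      · rw [bit_pos rfl, mul_one]
      · intro T _ hT
        rw [bit_neg (Ne.symm hT), mul_zero, mul_zero]
      · intro h
        exact absurd (Finset.mem_univ _) h
    rw [Finset.sum_congr rfl fun χ _ => h1 χ, Finset.sum_comm]
    refine Finset.sum_eq_zero fun T _ => ?_
    rcases T.eq_empty_or_nonempty with rfl | ⟨u, hu⟩
    · refine Finset.sum_eq_zero fun χ _ => ?_
      by_cases h : Nb χ {t} = ∅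
      · rw [G3 χ h]
        ring
      · rw [bit_neg h]
        ring
    · by_cases htT : t ∈ T
      · refine Finset.sum_eq_zero fun χ _ => ?_
        by_cases h : Nb χ {t} = T
        · have h2 : χ s(t, t) = true := by
            rw [← h, mem_Nb] at htT
            obtain ⟨x, hx, h2⟩ := htT
            rw [Finset.mem_singleton] at hx
            rwa [hx] at h2
          rw [G1 χ h2]
          ring
        · rw [bit_neg h]
          ring
      · have hut : u ≠ t := fun h => htT (h ▸ hu)
        refine toggle_zero (fun χ => G χ * bit (Nb χ {t} = T)) s(u, u) fun χ => ?_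
        have hN : Nb (Function.update χ s(u, u) (!χ s(u, u))) {t} = Nb χ {t} :=
          Nb_upd (by simpa using hut)
        show G (Function.update χ s(u, u) (!χ s(u, u))) *
          bit (Nb (Function.update χ s(u, u) (!χ s(u, u))) {t} = T) = G χ * bit (Nb χ {t} = T)
        rw [hN]
        by_cases h : Nb χ {t} = T
        · congr 1
          have h2 : χ s(t, u) = true := by
            rw [← h, mem_Nb] at hu
            obtain ⟨x, hx, h2⟩ := hu
            rw [Finset.mem_singleton] at hx
            rwa [hx] at h2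
          have h3 : χ s(t, t) = false := by
            by_contra hc
            rw [Bool.not_eq_false] at hc
            apply htT
            rw [← h, mem_Nb]
            exact ⟨t, Finset.mem_singleton_self t, hc⟩
          have h2' : Function.update χ s(u, u) (!χ s(u, u)) s(t, u) = true := by
            rw [upd_of _ (Or.inl (Ne.symm hut))]
            exact h2
          have h3' : Function.update χ s(u, u) (!χ s(u, u)) s(t, t) = false := by
            rw [upd_of _ (Or.inl (Ne.symm hut))]
            exact h3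
          rw [G4 χ u h3 hut h2, G4 _ u h3' hut h2', Function.update_idem]
        · rw [bit_neg h]
          ring
  rw [hsum] at hzero
  linarith

/-- **The signed number of looped graphs with Hall's property.** -/
theorem key (hcap : ∀ j, 1 ≤ cap j) :
    ∑ χ : Sym2 I → Bool, sgn χ * bit (Hl cap univ χ) = (-1) ^ Fintype.card I := by
  classical
  have h1 : ∀ S : Finset I, ∑ χ : Sym2 I → Bool, sgn χ * Fs cap S χ = (-1) ^ S.card := by
    intro S
    induction S using Finset.induction_on with
    | empty =>
      rw [Finset.sum_eq_single (fun _ => false)]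
      · have : Fs cap ∅ (fun _ : Sym2 I => false) = 1 := by
          refine bit_pos ⟨fun x y h => Bool.noConfusion h, fun X hX _ => ?_⟩
          rw [Finset.subset_empty.1 hX]
          simp
        rw [this]
        simp [sgn]
      · intro χ _ hχ
        have : Fs cap ∅ χ = 0 := by
          refine bit_neg fun h => hχ ?_
          funext e
          induction e using Sym2.ind with
          | _ x y =>
          by_contra hc
          rw [Bool.not_eq_false] at hc
          have := h.1 x y hc
          simp at this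
        rw [this, mul_zero]
      · intro h
        exact absurd (Finset.mem_univ _) h
    | insert t S ht ih =>
      rw [step hcap ht, ih, Finset.card_insert_of_notMem ht, pow_succ]
      ring
  rw [← Finset.card_univ, ← h1]
  refine Finset.sum_congr rfl fun χ _ => ?_
  congr 1
  exact bit_congr ⟨fun h => ⟨fun x _ _ => Finset.mem_univ x, h⟩, fun h => h.2⟩

end key

end Pool.Agent.U96.EV
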