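import Mathlib

set_option autoImplicit false

/-!
# From an injective choice of neighbours to a permutation
-/

namespace Pool.Agent.U96.EV

open Finset

/-- an injective map `f` of `V ∖ {z}` to `V` along a symmetric relation: there is a permutation of `V`
or of `V ∖ {z}` along the relation -/
theorem path_aux {Z : Type} [DecidableEq Z] (R : Z → Z → Prop) (hR : ∀ x y, R x y → R y x) (z : Z) :
    ∀ (n : ℕ) (V : Finset Z), V.card = n → z ∈ V → ∀ f : Z → Z,
      (∀ x ∈ V, x ≠ z → f x ∈ V ∧ R x (f x)) →
      (∀ x ∈ V, ∀ y ∈ V, x ≠ z → y ≠ z → f x = f y → x = y) →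
      ∃ g : Z → Z, ((∀ x ∈ V, g x ∈ V ∧ R x (g x)) ∧ (∀ x ∈ V, ∀ y ∈ V, g x = g y → x = y)) ∨
        ((∀ x ∈ V, x ≠ z → g x ∈ V ∧ g x ≠ z ∧ R x (g x)) ∧
          (∀ x ∈ V, ∀ y ∈ V, x ≠ z → y ≠ z → g x = g y → x = y)) := by
  intro n
  induction n using Nat.strong_induction_on with
  | _ n ih =>
  intro V hV hz f hf hinj
  obtain ⟨x0, hx0V, hx0⟩ : ∃ x0 ∈ V, ∀ x ∈ V, x ≠ z → f x ≠ x0 := by
    by_contra hcon
    push Not at hcon
    have h1 : V ⊆ (V.erase z).image f := by
      intro x hx
      obtain ⟨y, hy, hyz, hyx⟩ := hcon x hx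
      exact Finset.mem_image.2 ⟨y, Finset.mem_erase.2 ⟨hyz, hy⟩, hyx⟩
    have h2 := (Finset.card_le_card h1).trans Finset.card_image_le
    rw [Finset.card_erase_of_mem hz] at h2
    have h3 : 0 < V.card := Finset.card_pos.2 ⟨z, hz⟩
    omega
  by_cases h0z : x0 = z
  · subst h0z
    exact ⟨f, Or.inr ⟨fun x hx hxz => ⟨(hf x hx hxz).1, hx0 x hx hxz, (hf x hx hxz).2⟩, hinj⟩⟩
  obtain ⟨h1V, h1R⟩ := hf x0 hx0V h0z
  have h10 : f x0 ≠ x0 := hx0 x0 hx0V h0z
  by_cases h1z : f x0 = z
  · refine ⟨fun x => if x = x0 then z else if x = z then x0 else f x, Or.inl ⟨?_, ?_⟩⟩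
    · intro x hx
      beta_reduce
      by_cases hxx : x = x0
      · rw [if_pos hxx, hxx]
        rw [h1z] at h1R
        exact ⟨hz, h1R⟩
      · rw [if_neg hxx]
        by_cases hxz : x = z
        · rw [if_pos hxz, hxz]
          rw [h1z] at h1R
          exact ⟨hx0V, hR _ _ h1R⟩
        · rw [if_neg hxz]
          exact hf x hx hxz
    · intro x hx y hy hxy
      have key : ∀ x ∈ V, x ≠ x0 → x ≠ z → f x ≠ x0 ∧ f x ≠ z := by
        intro x hx h1 h2
        refine ⟨hx0 x hx h2, fun h3 => h1 (hinj x hx x0 hx0V h2 h0z (by rw [h3, h1z]))⟩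
      by_cases hx1 : x = x0
      · by_cases hy1 : y = x0
        · rw [hx1, hy1]
        · exfalso
          simp only [if_pos hx1, if_neg hy1] at hxy
          by_cases hy2 : y = z
          · rw [if_pos hy2] at hxy
            exact h0z hxy.symm
          · rw [if_neg hy2] at hxy
            exact (key y hy hy1 hy2).2 hxy.symm
      · by_cases hy1 : y = x0
        · exfalso
          simp only [if_neg hx1, if_pos hy1] at hxy
          by_cases hx2 : x = z
          · rw [if_pos hx2] at hxy
            exact h0z hxy
          · rw [if_neg hx2] at hxy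
            exact (key x hx hx1 hx2).2 hxy
        · simp only [if_neg hx1, if_neg hy1] at hxy
          by_cases hx2 : x = z
          · by_cases hy2 : y = z
            · rw [hx2, hy2]
            · exfalso
              rw [if_pos hx2, if_neg hy2] at hxy
              exact (key y hy hy1 hy2).1 hxy.symm
          · by_cases hy2 : y = z
            · exfalso
              rw [if_neg hx2, if_pos hy2] at hxy
              exact (key x hx hx1 hx2).1 hxy
            · rw [if_neg hx2, if_neg hy2] at hxy
              exact hinj x hx y hy hx2 hy2 hxy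
  · set x1 := f x0 with hx1def
    set V' := (V.erase x0).erase x1 with hV'
    have hmem : ∀ x, x ∈ V' ↔ x ≠ x1 ∧ x ≠ x0 ∧ x ∈ V := by
      intro x
      rw [hV', Finset.mem_erase, Finset.mem_erase]
    have hlt : V'.card < n := by
      have h1 : V' ⊂ V := by
        refine ⟨(Finset.erase_subset _ _).trans (Finset.erase_subset _ _), fun h => ?_⟩
        exact ((hmem x0).1 (h hx0V)).2.1 rfl
      rw [← hV]
      exact Finset.card_lt_card h1
    obtain ⟨g, hg⟩ := ih V'.card hlt V' rfl ((hmem z).2 ⟨Ne.symm h1z, Ne.symm h0z, hz⟩) f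
      (by
        intro x hx hxz
        obtain ⟨h2, h3, h4⟩ := (hmem x).1 hx
        refine ⟨(hmem _).2 ⟨fun h5 => h3 (hinj x h4 x0 hx0V hxz h0z h5), hx0 x h4 hxz,
          (hf x h4 hxz).1⟩, (hf x h4 hxz).2⟩)
      (by
        intro x hx y hy
        exact hinj x ((hmem x).1 hx).2.2 y ((hmem y).1 hy).2.2)
    have g0 : ∀ g : Z → Z, (fun x => if x = x0 then x1 else if x = x1 then x0 else g x) x0 = x1 :=
      fun g => if_pos rfl
    have g1 : ∀ g : Z → Z, (fun x => if x = x0 then x1 else if x = x1 then x0 else g x) x1 = x0 := by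
      intro g
      show (if x1 = x0 then x1 else if x1 = x1 then x0 else g x1) = x0
      rw [if_neg h10, if_pos rfl]
    have g2 : ∀ (g : Z → Z) (x : Z), x ≠ x0 → x ≠ x1 →
        (fun x => if x = x0 then x1 else if x = x1 then x0 else g x) x = g x := by
      intro g x h1 h2
      show (if x = x0 then x1 else if x = x1 then x0 else g x) = g x
      rw [if_neg h1, if_neg h2]
    refine ⟨fun x => if x = x0 then x1 else if x = x1 then x0 else g x, ?_⟩
    rcases hg with ⟨ha, hb⟩ | ⟨ha, hb⟩
    · refine Or.inl ⟨?_, ?_⟩
      · intro x hx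
        by_cases hxx0 : x = x0
        · rw [hxx0, g0]
          exact ⟨h1V, h1R⟩
        · by_cases hxx1 : x = x1
          · rw [hxx1, g1]
            exact ⟨hx0V, hR _ _ h1R⟩
          · rw [g2 g x hxx0 hxx1]
            have := ha x ((hmem x).2 ⟨hxx1, hxx0, hx⟩)
            exact ⟨((hmem _).1 this.1).2.2, this.2⟩
      · intro x hx y hy hxy
        by_cases hxx0 : x = x0
        · by_cases hyy0 : y = x0
          · rw [hxx0, hyy0]
          · exfalso
            rw [hxx0, g0] at hxy
            by_cases hyy1 : y = x1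
            · rw [hyy1, g1] at hxy
              exact h10 hxy
            · rw [g2 g y hyy0 hyy1] at hxy
              exact ((hmem _).1 (ha y ((hmem y).2 ⟨hyy1, hyy0, hy⟩)).1).1 hxy.symm
        · by_cases hxx1 : x = x1
          · rw [hxx1, g1] at hxy
            by_cases hyy1 : y = x1
            · rw [hxx1, hyy1]
            · exfalso
              by_cases hyy0 : y = x0
              · rw [hyy0, g0] at hxy
                exact h10 hxy.symm
              · rw [g2 g y hyy0 hyy1] at hxy
                exact ((hmem _).1 (ha y ((hmem y).2 ⟨hyy1, hyy0, hy⟩)).1).2.1 hxy.symm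
          · rw [g2 g x hxx0 hxx1] at hxy
            have h5 := (hmem _).1 (ha x ((hmem x).2 ⟨hxx1, hxx0, hx⟩)).1
            by_cases hyy0 : y = x0
            · exfalso
              rw [hyy0, g0] at hxy
              exact h5.1 hxy
            · by_cases hyy1 : y = x1
              · exfalso
                rw [hyy1, g1] at hxy
                exact h5.2.1 hxy
              · rw [g2 g y hyy0 hyy1] at hxy
                exact hb x ((hmem x).2 ⟨hxx1, hxx0, hx⟩) y ((hmem y).2 ⟨hyy1, hyy0, hy⟩) hxy
    · refine Or.inr ⟨?_, ?_⟩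
      · intro x hx hxz
        by_cases hxx0 : x = x0
        · rw [hxx0, g0]
          exact ⟨h1V, h1z, h1R⟩
        · by_cases hxx1 : x = x1
          · rw [hxx1, g1]
            exact ⟨hx0V, h0z, hR _ _ h1R⟩
          · rw [g2 g x hxx0 hxx1]
            have := ha x ((hmem x).2 ⟨hxx1, hxx0, hx⟩) hxz
            exact ⟨((hmem _).1 this.1).2.2, this.2.1, this.2.2⟩
      · intro x hx y hy hxz hyz hxy
        by_cases hxx0 : x = x0
        · by_cases hyy0 : y = x0
          · rw [hxx0, hyy0]
          · exfalso
            rw [hxx0, g0] at hxy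
            by_cases hyy1 : y = x1
            · rw [hyy1, g1] at hxy
              exact h10 hxy
            · rw [g2 g y hyy0 hyy1] at hxy
              exact ((hmem _).1 (ha y ((hmem y).2 ⟨hyy1, hyy0, hy⟩) hyz).1).1 hxy.symm
        · by_cases hxx1 : x = x1
          · rw [hxx1, g1] at hxy
            by_cases hyy1 : y = x1
            · rw [hxx1, hyy1]
            · exfalso
              by_cases hyy0 : y = x0
              · rw [hyy0, g0] at hxy
                exact h10 hxy.symm
              · rw [g2 g y hyy0 hyy1] at hxy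
                exact ((hmem _).1 (ha y ((hmem y).2 ⟨hyy1, hyy0, hy⟩) hyz).1).2.1 hxy.symm
          · rw [g2 g x hxx0 hxx1] at hxy
            have h5 := (hmem _).1 (ha x ((hmem x).2 ⟨hxx1, hxx0, hx⟩) hxz).1
            by_cases hyy0 : y = x0
            · exfalso
              rw [hyy0, g0] at hxy
              exact h5.1 hxy
            · by_cases hyy1 : y = x1
              · exfalso
                rw [hyy1, g1] at hxy
                exact h5.2.1 hxy
              · rw [g2 g y hyy0 hyy1] at hxy
                exact hb x ((hmem x).2 ⟨hxx1, hxx0, hx⟩) y ((hmem y).2 ⟨hyy1, hyy0, hy⟩) hxz hyz hxy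

/-- an injective map `I → Option I` along a symmetric relation gives a permutation of `I` or of
`Option I` along the relation -/
theorem dichotomy {I : Type} [Fintype I] [DecidableEq I] (R : Option I → Option I → Prop)
    (hR : ∀ x y, R x y → R y x) (f : I → Option I) (hf : Function.Injective f)
    (h : ∀ i, R (some i) (f i)) :
    (∃ π : Equiv.Perm I, ∀ i, R (some i) (some (π i))) ∨
      (∃ π : Equiv.Perm (Option I), ∀ i, R i (π i)) := by
  obtain ⟨g, hg | hg⟩ := path_aux R hR none _ univ rfl (Finset.mem_univ _)
    (fun x => x.elim none f) (by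
      rintro (_ | i) _ hi
      · exact absurd rfl hi
      · exact ⟨Finset.mem_univ _, h i⟩) (by
      rintro (_ | i) _ (_ | j) _ hi hj hij
      · rfl
      · exact absurd rfl hi
      · exact absurd rfl hj
      · rw [hf hij])
  · right
    have hinj : Function.Injective g := fun x y hxy => hg.2 x (Finset.mem_univ _) y
      (Finset.mem_univ _) hxy
    exact ⟨Equiv.ofBijective g (Finite.injective_iff_bijective.1 hinj), fun i =>
      (hg.1 i (Finset.mem_univ _)).2⟩
  · left
    have h1 : ∀ i : I, ∃ j : I, g (some i) = some j := by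
      intro i
      have := (hg.1 (some i) (Finset.mem_univ _) (by simp)).2.1
      exact Option.ne_none_iff_exists'.1 this
    choose p hp using h1
    have hinj : Function.Injective p := by
      intro x y hxy
      have := hg.2 (some x) (Finset.mem_univ _) (some y) (Finset.mem_univ _) (by simp) (by simp)
        (by rw [hp, hp, hxy])
      simpa using this
    refine ⟨Equiv.ofBijective p (Finite.injective_iff_bijective.1 hinj), fun i => ?_⟩
    have := (hg.1 (some i) (Finset.mem_univ _) (by simp)).2.2
    rw [hp] at this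
    exact this

end Pool.Agent.U96.EV
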