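import Pool.Agent.U96.EV.Key
import Pool.Agent.U96.EV.Path
import Pool.Agent.U96.EV.Blk

set_option autoImplicit false
set_option linter.unusedSectionVars false

/-!
# The properties between matchings and fractional matchings on the invariant graphs
-/

namespace Pool.Agent.U96.EV

open Finset
open Pool.Agent.TH669.KP (sgn bit bit_pos bit_neg bit_congr)
open Pool.Agent.TH669.KC (Pr Cl cls cls_surj)
open Pool.Agent.TH669.KS (Vs Js Gs SS adj_same adj_diff relation)
open Pool.Agent.H119R2.Kp (GP PV)

section hall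

variable {I : Type} [Fintype I] [DecidableEq I] {cap : I → ℕ}

theorem hall_aux {ψ : Sym2 I → Bool} (hH : Hl cap univ ψ) (X : Finset I) :
    ∃ J ⊆ X, Ind ψ J ∧ J.card ≤ cp cap (Nb ψ J) ∧ Nb ψ J ∪ (X \ J) ⊆ Nb ψ X ∧
      Disjoint (Nb ψ J) (X \ J) := by
  refine ⟨X \ Nb ψ X, Finset.sdiff_subset, ?_, ?_, ?_, ?_⟩
  · intro x hx y hy
    by_contra hc
    rw [Bool.not_eq_false] at hc
    exact (Finset.mem_sdiff.1 hy).2 (mem_Nb.2 ⟨x, (Finset.mem_sdiff.1 hx).1, hc⟩)
  · refine hH _ (Finset.subset_univ _) ?_
    intro x hx y hy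
    by_contra hc
    rw [Bool.not_eq_false] at hc
    exact (Finset.mem_sdiff.1 hy).2 (mem_Nb.2 ⟨x, (Finset.mem_sdiff.1 hx).1, hc⟩)
  · refine Finset.union_subset (Nb_mono Finset.sdiff_subset) ?_
    intro x hx
    rw [Finset.mem_sdiff] at hx
    by_contra hc
    exact hx.2 (Finset.mem_sdiff.2 ⟨hx.1, hc⟩)
  · rw [Finset.disjoint_left]
    intro j hj hj2
    rw [mem_Nb] at hj
    obtain ⟨x, hx, hxj⟩ := hj
    rw [Finset.mem_sdiff] at hx
    apply hx.2
    rw [mem_Nb]
    exact ⟨j, (Finset.mem_sdiff.1 hj2).1, by rw [Sym2.eq_swap]; exact hxj⟩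

theorem hall1 {ψ : Sym2 I → Bool} (hH : Hl (fun _ => 1) univ ψ) :
    ∃ π : Equiv.Perm I, ∀ i, ψ s(i, π i) = true := by
  classical
  obtain ⟨f, hf, hf2⟩ := (Finset.all_card_le_biUnion_card_iff_exists_injective
    (fun i : I => univ.filter fun j => ψ s(i, j) = true)).1 (by
      intro X
      obtain ⟨J, hJX, _, h2, h3, h4⟩ := hall_aux hH X
      have h5 : cp (fun _ => 1) (Nb ψ J) = (Nb ψ J).card := by simp [cp]
      rw [h5] at h2
      have h6 : Nb ψ X ⊆ X.biUnion fun i => univ.filter fun j => ψ s(i, j) = true := by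
        intro j hj
        rw [mem_Nb] at hj
        obtain ⟨x, hx, hxj⟩ := hj
        exact Finset.mem_biUnion.2 ⟨x, hx, Finset.mem_filter.2 ⟨Finset.mem_univ _, hxj⟩⟩
      have h7 := Finset.card_le_card (h3.trans h6)
      rw [Finset.card_union_of_disjoint h4] at h7
      have h8 := Finset.card_sdiff_add_card_eq_card hJX
      omega)
  refine ⟨Equiv.ofBijective f (Finite.injective_iff_bijective.1 hf), fun i => ?_⟩
  exact (Finset.mem_filter.1 (hf2 i)).2

end hall

section hall2

variable {K : Type} [Fintype K] [DecidableEq K]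

/-- the relation with a second copy `none` of the block `some none` -/
def RR (ψ : Sym2 (Option K) → Bool) : Option (Option K) → Option (Option K) → Prop
  | some i, some j => ψ s(i, j) = true
  | some i, none => i ≠ none ∧ ψ s(i, none) = true
  | none, some i => i ≠ none ∧ ψ s(i, none) = true
  | none, none => False

theorem RR_symm (ψ : Sym2 (Option K) → Bool) (x y : Option (Option K)) (h : RR ψ x y) :
    RR ψ y x := by
  rcases x with _ | i
  · rcases y with _ | j
    · exact h
    · exact h
  · rcases y with _ | j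
    · exact h
    · have h1 : ψ s(i, j) = true := h
      show ψ s(j, i) = true
      rw [Sym2.eq_swap]
      exact h1

/-- the capacities -/
def c2 : Option K → ℕ := fun i => i.elim 2 (fun _ => 1)

theorem cp_c2 (Y : Finset (Option K)) : cp c2 Y = Y.card + if none ∈ Y then 1 else 0 := by
  classical
  unfold cp
  have h1 : ∀ i : Option K, c2 i = 1 + if i = none then 1 else 0 := by
    rintro (_ | k)
    · rfl
    · simp [c2]
  rw [Finset.sum_congr rfl fun i _ => h1 i, Finset.sum_add_distrib, Finset.sum_ite_eq' Y none]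
  simp

theorem hall2 {ψ : Sym2 (Option K) → Bool} (hH : Hl c2 univ ψ) :
    ∃ f : Option K → Option (Option K), Function.Injective f ∧ ∀ i, RR ψ (some i) (f i) := by
  classical
  obtain ⟨f, hf, hf2⟩ := (Finset.all_card_le_biUnion_card_iff_exists_injective
    (fun i : Option K => univ.filter fun j => RR ψ (some i) j)).1 (by
      intro X
      obtain ⟨J, hJX, h1, h2, h3, h4⟩ := hall_aux hH X
      rw [cp_c2] at h2
      have h8 := Finset.card_sdiff_add_card_eq_card hJX
      have h7 := Finset.card_le_card h3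
      rw [Finset.card_union_of_disjoint h4] at h7
      have h6 : (Nb ψ X).image some ⊆
          X.biUnion fun i => univ.filter fun j => RR ψ (some i) j := by
        intro j hj
        rw [Finset.mem_image] at hj
        obtain ⟨j, hj, rfl⟩ := hj
        rw [mem_Nb] at hj
        obtain ⟨x, hx, hxj⟩ := hj
        exact Finset.mem_biUnion.2 ⟨x, hx, Finset.mem_filter.2 ⟨Finset.mem_univ _, hxj⟩⟩
      by_cases hn : none ∈ Nb ψ J
      · rw [if_pos hn] at h2
        rw [mem_Nb] at hn
        obtain ⟨x, hx, hxn⟩ := hn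
        have hxn' : x ≠ none := by
          rintro rfl
          rw [h1 none hx none hx] at hxn
          cases hxn
        have h9 : insert none ((Nb ψ X).image some) ⊆
            X.biUnion fun i => univ.filter fun j => RR ψ (some i) j :=
          Finset.insert_subset (Finset.mem_biUnion.2 ⟨x, hJX hx, Finset.mem_filter.2
            ⟨Finset.mem_univ _, hxn', hxn⟩⟩) h6
        have h10 := Finset.card_le_card h9
        rw [Finset.card_insert_of_notMem (by simp),
          Finset.card_image_of_injective _ (Option.some_injective _)] at h10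
        omega
      · rw [if_neg hn] at h2
        have h10 := Finset.card_le_card h6
        rw [Finset.card_image_of_injective _ (Option.some_injective _)] at h10
        omega)
  exact ⟨f, hf, fun i => (Finset.mem_filter.1 (hf2 i)).2⟩

end hall2

section member

variable {a b : ℕ} [NeZero b] {K : Type} [Fintype K] [DecidableEq K]

theorem real2 {T Y : Type} [Fintype T] [DecidableEq T] [Fintype Y] [DecidableEq Y] {h : ℕ}
    (hh : 2 * h = 2 ^ a) (χ : Js (Bk a b K) → Bool) (π : Equiv.Perm T) (o : T → Option K)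
    (ι : K → T) (hι : ∀ k, o (ι k) = some k) (hι' : ∀ t k, o t = some k → t = ι k)
    (hπ : ∀ t, psi χ s(o t, o (π t)) = true) (hπn : ∀ t, o t = none → o (π t) ≠ none)
    (yv : Y → T) (hyv : Function.Injective yv) (hyo : ∀ c, o (yv c) = none)
    (hys : ∀ t, o t = none → ∃ c, yv c = t) (d : ℕ) (h1 : b ≤ Fintype.card Y * 2 ^ a + d)
    (h2 : Fintype.card Y * 2 ^ a ≤ b + d) : Mt (Gs χ) d := by
  classical
  have hcard : Fintype.card (Y × (Bool × Fin h)) = Fintype.card Y * 2 ^ a := by
    rw [Fintype.card_prod, Fintype.card_prod, Fintype.card_bool, Fintype.card_fin, hh]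
  obtain ⟨p, hp1, hp2⟩ := partial_inj (X := ZMod b) (Y := Y × (Bool × Fin h)) d
    (by rw [hcard, ZMod.card]; exact h1) (by rw [hcard, ZMod.card]; exact h2)
  let F : Y × (Bool × Fin h) → (T × (Bool × Fin h)) ⊕ Empty := fun y => .inl (yv y.1, y.2)
  have hF : Function.Injective F := by
    rintro ⟨c, y⟩ ⟨c', y'⟩ h3
    simp only [F, Sum.inl.injEq, Prod.mk.injEq] at h3
    rw [hyv h3.1, h3.2]
  refine real (Z := Empty) hh χ π o ι hι hι' hπ hπn id (fun _ => rfl)
    (fun x => (p x).map F) ?_ ?_ ?_ d ?_
  · intro x t y hx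
    rw [Option.map_eq_some_iff] at hx
    obtain ⟨⟨c, y'⟩, _, h4⟩ := hx
    simp only [F, Sum.inl.injEq, Prod.mk.injEq] at h4
    rw [← h4.1]
    exact hyo c
  · intro x x' w hx hx'
    rw [Option.map_eq_some_iff] at hx hx'
    obtain ⟨y, h3, h4⟩ := hx
    obtain ⟨y', h3', h4'⟩ := hx'
    have : y' = y := hF (by rw [h4, h4'])
    subst this
    exact hp1 x x' _ h3 h3'
  · intro x x' z
    exact z.elim
  · refine le_trans (Nat.add_le_add ?_ ?_) hp2
    · refine Finset.card_le_card ?_
      intro x hx
      rw [Finset.mem_filter] at hx ⊢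
      refine ⟨hx.1, ?_⟩
      simpa using hx.2
    · refine (Finset.card_le_card (t := (univ.filter fun y => ∀ x, p x ≠ some y).image F) ?_).trans
        Finset.card_image_le
      intro w hw
      rw [Finset.mem_filter] at hw
      obtain ⟨_, hw1, hw2⟩ := hw
      rcases w with ⟨t, y⟩ | z
      · obtain ⟨c, hc⟩ := hys t (hw1 t y rfl)
        subst hc
        refine Finset.mem_image.2 ⟨(c, y), Finset.mem_filter.2 ⟨Finset.mem_univ _, ?_⟩, rfl⟩
        intro x hx
        exact hw2 x (by rw [hx]; rfl)
      · exact z.elim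

theorem caseI {h : ℕ} (hh : 2 * h = 2 ^ a) (χ : Js (Bk a b K) → Bool)
    (π : Equiv.Perm (Option K)) (hπ : ∀ i, psi χ s(i, π i) = true) (d : ℕ)
    (h1 : b ≤ 2 ^ a + d) (h2 : 2 ^ a ≤ b + d) (h3 : b ≤ 3 * d + 2) : Mt (Gs χ) d := by
  classical
  by_cases hn : π none = none
  · have hsome : ∀ k, ∃ k', π (some k) = some k' := by
      intro k
      rw [← Option.ne_none_iff_exists']
      intro h4
      have := π.injective (h4.trans hn.symm)
      cases this
    choose f hf using hsome
    have hfi : Function.Injective f := by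
      intro x y hxy
      have : π (some x) = π (some y) := by rw [hf, hf, hxy]
      exact Option.some.inj (π.injective this)
    have hloop : psi χ s(none, none) = true := by
      have := hπ none
      rwa [hn] at this
    obtain ⟨z, hz, hzadj⟩ := loop_of_psi χ hloop
    obtain ⟨m, hm1, hm2, hm3⟩ := cyc (B := ZMod b) z hz
    have hm4 : ∀ x : {x : ZMod b // m x ≠ x}, m (m x.1) ≠ m x.1 := by
      intro x h4
      rw [hm1] at h4
      exact x.2 h4.symm
    refine real (T := K) (Z := {x : ZMod b // m x ≠ x}) hh χ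
      (Equiv.ofBijective f (Finite.injective_iff_bijective.1 hfi)) some id (fun _ => rfl)
      (fun t k h4 => Option.some.inj h4) ?_ (fun t h4 => by cases h4)
      (fun x => ⟨m x.1, hm4 x⟩) (fun x => Subtype.ext (hm1 x.1))
      (fun x => if hx : m x ≠ x then some (.inr ⟨x, hx⟩) else none) ?_ ?_ ?_ d ?_
    · intro t
      have := hπ (some t)
      rwa [hf] at this
    · intro x t y hx
      exfalso
      by_cases h4 : m x ≠ x
      · rw [dif_pos h4] at hx
        simp at hx
      · rw [dif_neg h4] at hx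
        cases hx
    · intro x x' w hx hx'
      by_cases h4 : m x ≠ x
      · by_cases h5 : m x' ≠ x'
        · rw [dif_pos h4] at hx
          rw [dif_pos h5] at hx'
          rw [← hx] at hx'
          simp only [Option.some.injEq, Sum.inr.injEq, Subtype.mk.injEq] at hx'
          exact hx'.symm
        · rw [dif_neg h5] at hx'
          cases hx'
      · rw [dif_neg h4] at hx
        cases hx
    · rintro x x' ⟨y, hy⟩ hx hx'
      by_cases h4 : m x ≠ x
      · by_cases h5 : m x' ≠ x'
        · rw [dif_pos h4] at hx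
          rw [dif_pos h5] at hx'
          simp only [Option.some.injEq, Sum.inr.injEq, Subtype.mk.injEq] at hx hx'
          rw [hx', hx]
          rcases hm2 y hy with h6 | h6
          · exact (hzadj _ _ h6).symm
          · exact hzadj _ _ h6
        · rw [dif_neg h5] at hx'
          cases hx'
      · rw [dif_neg h4] at hx
        cases hx
    · have e1 : (univ.filter fun x : ZMod b => (if hx : m x ≠ x then
          some (.inr ⟨x, hx⟩) else none) = (none : Option ((K × (Bool × Fin h)) ⊕
            {x : ZMod b // m x ≠ x}))) = univ.filter fun x => m x = x := by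
        refine Finset.filter_congr fun x _ => ?_
        by_cases h4 : m x ≠ x
        · rw [dif_pos h4]
          simp [h4]
        · rw [dif_neg h4]
          simpa using h4
      have e2 : (univ.filter fun w : (K × (Bool × Fin h)) ⊕ {x : ZMod b // m x ≠ x} =>
          (∀ t y, w = .inl (t, y) → some t = (none : Option K)) ∧
            ∀ x : ZMod b, (if hx : m x ≠ x then some (.inr ⟨x, hx⟩) else none) ≠ some w) = ∅ := by
        rw [Finset.filter_eq_empty_iff]
        rintro w - ⟨hw1, hw2⟩
        rcases w with ⟨t, y⟩ | ⟨x, hx⟩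
        · have := hw1 t y rfl
          cases this
        · apply hw2 x
          rw [dif_pos hx]
      rw [e1, e2, Finset.card_empty, add_zero]
      rw [ZMod.card] at hm3
      omega
  · refine real2 (T := Option K) (Y := Unit) hh χ π id some (fun _ => rfl) (fun _ _ h4 => h4) hπ
      ?_ (fun _ => none) (fun _ _ _ => rfl) (fun _ => rfl) (fun t ht => ⟨(), ht.symm⟩) d ?_ ?_
    · rintro t h4
      have h5 : t = none := h4
      subst h5
      exact hn
    · simpa using h1
    · simpa using h2

theorem member1 {h : ℕ} (hh : 2 * h = 2 ^ a) (χ : Js (Bk a b K) → Bool)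
    (hH : Hl (fun _ => 1) univ (psi χ)) (d : ℕ)
    (h1 : b ≤ 2 ^ a + d) (h2 : 2 ^ a ≤ b + d) (h3 : b ≤ 3 * d + 2) : Mt (Gs χ) d := by
  obtain ⟨π, hπ⟩ := hall1 hH
  exact caseI hh χ π hπ d h1 h2 h3

theorem member2 {h : ℕ} (hh : 2 * h = 2 ^ a) (χ : Js (Bk a b K) → Bool)
    (hH : Hl c2 univ (psi χ)) (d : ℕ)
    (h1 : b ≤ 2 ^ a + d) (h2 : 2 ^ a ≤ b + d) (h3 : b ≤ 3 * d + 2) (h4 : b ≤ 2 * 2 ^ a + d)
    (h5 : 2 * 2 ^ a ≤ b + d) : Mt (Gs χ) d := by
  classical
  obtain ⟨f, hf, hfR⟩ := hall2 hH
  rcases dichotomy (RR (psi χ)) (RR_symm _) f hf hfR with ⟨π, hπ⟩ | ⟨π, hπ⟩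
  · exact caseI hh χ π hπ d h1 h2 h3
  · by_cases hn : π (some none) = some none
    · -- the copy replaces the block
      have hex : ∀ i : Option K, ∃ j : Option K, (i = none → π none = some j ∧ j ≠ none) ∧
          (i ≠ none → (π (some i) = some j ∧ j ≠ none) ∨ (π (some i) = none ∧ j = none)) := by
        intro i
        by_cases hi : i = none
        · have h6 := hπ none
          rcases h7 : π none with _ | j
          · rw [h7] at h6
            exact h6.elim
          · rw [h7] at h6
            exact ⟨j, fun _ => ⟨rfl, h6.1⟩, fun h8 => absurd hi h8⟩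
        · rcases h7 : π (some i) with _ | j
          · exact ⟨none, fun h8 => absurd h8 hi, fun _ => Or.inr ⟨rfl, rfl⟩⟩
          · refine ⟨j, fun h8 => absurd h8 hi, fun _ => Or.inl ⟨rfl, ?_⟩⟩
            rintro rfl
            rw [← hn] at h7
            exact hi (Option.some.inj (π.injective h7))
      choose g hg1 hg2 using hex
      have hgi : Function.Injective g := by
        intro i j hij
        by_cases hi : i = none
        · obtain ⟨a1, a2⟩ := hg1 i hi
          by_cases hj : j = none
          · rw [hi, hj]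
          · exfalso
            rcases hg2 j hj with ⟨a3, a4⟩ | ⟨a3, a4⟩
            · rw [← hij, ← a1] at a3
              have := π.injective a3
              cases this
            · exact a2 (hij.trans a4)
        · by_cases hj : j = none
          · exfalso
            obtain ⟨a1, a2⟩ := hg1 j hj
            rcases hg2 i hi with ⟨a3, a4⟩ | ⟨a3, a4⟩
            · rw [hij, ← a1] at a3
              have := π.injective a3
              cases this
            · exact a2 (hij.symm.trans a4)
          · rcases hg2 i hi with ⟨a3, a4⟩ | ⟨a3, a4⟩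
            · rcases hg2 j hj with ⟨a5, a6⟩ | ⟨a5, a6⟩
              · rw [← hij, ← a3] at a5
                exact (Option.some.inj (π.injective a5)).symm
              · exact absurd (hij.trans a6) a4
            · rcases hg2 j hj with ⟨a5, a6⟩ | ⟨a5, a6⟩
              · exact absurd (hij.symm.trans a4) a6
              · rw [← a3] at a5
                exact (Option.some.inj (π.injective a5)).symm
      refine caseI hh χ (Equiv.ofBijective g (Finite.injective_iff_bijective.1 hgi)) ?_ d h1 h2 h3
      intro i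
      show psi χ s(i, g i) = true
      by_cases hi : i = none
      · obtain ⟨a1, a2⟩ := hg1 i hi
        have h6 := hπ none
        rw [a1] at h6
        rw [hi, Sym2.eq_swap]
        subst hi
        exact h6.2
      · have h6 := hπ (some i)
        rcases hg2 i hi with ⟨a3, a4⟩ | ⟨a3, a4⟩
        · rw [a3] at h6
          exact h6
        · rw [a3] at h6
          rw [a4]
          exact h6.2
    · let o : Option (Option K) → Option K := fun t => t.elim none id
      have o0 : o none = none := rfl
      have o1 : ∀ i, o (some i) = i := fun _ => rfl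
      refine real2 (T := Option (Option K)) (Y := Bool) hh χ π o (fun k => some (some k))
        (fun _ => rfl) ?_ ?_ ?_ (fun c => if c = true then none else some none) ?_ ?_ ?_ d ?_ ?_
      · rintro (_ | i) k h6
        · rw [o0] at h6
          cases h6
        · rw [o1] at h6
          rw [h6]
      · intro t
        have h6 := hπ t
        rcases t with _ | i
        · rcases h7 : π none with _ | j
          · rw [h7] at h6
            exact h6.elim
          · rw [h7] at h6
            rw [o0, o1, Sym2.eq_swap]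
            exact h6.2
        · rcases h7 : π (some i) with _ | j
          · rw [h7] at h6
            rw [o0, o1]
            exact h6.2
          · rw [h7] at h6
            rw [o1, o1]
            exact h6
      · rintro (_ | i) h6
        · have h8 := hπ none
          rcases h7 : π none with _ | j
          · rw [h7] at h8
            exact h8.elim
          · rw [h7] at h8
            rw [o1]
            exact h8.1
        · rw [o1] at h6
          subst h6
          have h8 := hπ (some none)
          rcases h7 : π (some none) with _ | j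
          · rw [h7] at h8
            exact absurd rfl h8.1
          · rw [o1]
            rintro rfl
            exact hn h7
      · rintro (_ | _) (_ | _) h6
        · rfl
        · simp at h6
        · simp at h6
        · rfl
      · rintro (_ | _) <;> rfl
      · rintro (_ | i) h6
        · exact ⟨true, by simp⟩
        · rw [o1] at h6
          exact ⟨false, by rw [h6]; simp⟩
      · simpa using h4
      · simpa using h5

end member

/-- no set `U` has more than `|U| + e` isolated vertices in its complement -/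
def Fr {V : Type} (G : SimpleGraph V) (e : ℕ) : Prop :=
  ∀ U : Set V, {v | v ∉ U ∧ ∀ w, G.Adj v w → w ∈ U}.ncard ≤ U.ncard + e

theorem Fr.map {V V' : Type} [Finite V] {G : SimpleGraph V} {G' : SimpleGraph V'} {e : ℕ}
    (f : V ≃ V') (hf : ∀ u v, G.Adj u v ↔ G'.Adj (f u) (f v)) (h : Fr G e) : Fr G' e := by
  intro U
  have h1 := h (f ⁻¹' U)
  have h2 : {v | v ∉ f ⁻¹' U ∧ ∀ w, G.Adj v w → w ∈ f ⁻¹' U} =
      f ⁻¹' {v | v ∉ U ∧ ∀ w, G'.Adj v w → w ∈ U} := by
    ext v
    constructor
    · rintro ⟨h3, h4⟩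
      refine ⟨h3, fun w hw => ?_⟩
      have := h4 (f.symm w) ((hf _ _).2 (by rw [Equiv.apply_symm_apply]; exact hw))
      rwa [Set.mem_preimage, Equiv.apply_symm_apply] at this
    · rintro ⟨h3, h4⟩
      exact ⟨h3, fun w hw => h4 _ ((hf _ _).1 hw)⟩
  have h3 : ∀ S : Set V', (f ⁻¹' S).ncard = S.ncard := by
    intro S
    rw [← Set.ncard_image_of_injective _ f.injective, Set.image_preimage_eq _ f.surjective]
  rw [h2, h3, h3] at h1
  exact h1

section nonmember

variable {a b : ℕ} [NeZero b] {K : Type} [Fintype K] [DecidableEq K]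

theorem sum_opt (f : Option K → ℕ) (α β : ℕ) (h0 : f none = α) (h1 : ∀ k, f (some k) = β)
    (X : Finset (Option K)) :
    (none ∈ X → ∑ i ∈ X, f i + β = β * X.card + α) ∧
      (none ∉ X → ∑ i ∈ X, f i = β * X.card) := by
  classical
  have key : ∀ Y : Finset (Option K), none ∉ Y → ∑ i ∈ Y, f i = β * Y.card := by
    intro Y hY
    rw [Finset.sum_congr rfl (g := fun _ => β), Finset.sum_const, smul_eq_mul, mul_comm]
    rintro (_ | k) hk
    · exact absurd hk hY
    · exact h1 k
  refine ⟨fun h => ?_, key X⟩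
  have h2 := key (X.erase none) (Finset.notMem_erase _ _)
  rw [← Finset.add_sum_erase X f h, h2, h0, Finset.card_erase_of_mem h]
  have h3 : 0 < X.card := Finset.card_pos.2 ⟨none, h⟩
  obtain ⟨c, hc⟩ : ∃ c, X.card = c + 1 := ⟨X.card - 1, by omega⟩
  rw [hc, Nat.add_sub_cancel]
  ring

theorem ncard_blocks (X : Finset (Option K)) :
    {v : Vs (Bk a b K) | v.1 ∈ X}.ncard = ∑ i ∈ X, sz a b K i := by
  classical
  have h1 : {v : Vs (Bk a b K) | v.1 ∈ X} =
      ((X.sigma fun i => (univ : Finset (Bk a b K i))) : Set (Σ i, Bk a b K i)) := by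
    ext v
    simp
  rw [h1, Set.ncard_coe_finset, Finset.card_sigma]
  refine Finset.sum_congr rfl fun i _ => ?_
  rw [Finset.card_univ, card_Bk]

theorem nonmember (χ : Js (Bk a b K) → Bool) (cap : Option K → ℕ) (c e : ℕ)
    (h0 : cap none = c) (h1 : ∀ k, cap (some k) = 1) (e1 : e < 2 ^ a) (e2 : e < b)
    (e3 : b + e < (c + 1) * 2 ^ a) (hH : ¬ Hl cap univ (psi χ)) : ¬ Fr (Gs χ) e := by
  classical
  intro hF
  unfold Hl at hH
  push Not at hH
  obtain ⟨X, _, hI, hX⟩ := hH
  set N := Nb (psi χ) X with hN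
  have hdisj : ∀ i ∈ X, i ∉ N := by
    intro i hi hiN
    rw [hN, mem_Nb] at hiN
    obtain ⟨x, hx, h2⟩ := hiN
    rw [hI x hx i hi] at h2
    cases h2
  have h2 := hF {v : Vs (Bk a b K) | v.1 ∈ N}
  have h3 : {v : Vs (Bk a b K) | v.1 ∈ X} ⊆
      {v | v ∉ {v : Vs (Bk a b K) | v.1 ∈ N} ∧ ∀ w, (Gs χ).Adj v w →
        w ∈ {v : Vs (Bk a b K) | v.1 ∈ N}} := by
    rintro ⟨i, x⟩ hi
    refine ⟨hdisj i hi, ?_⟩
    rintro ⟨j, y⟩ hw
    have h4 := psi_of_adj χ hw
    exact mem_Nb.2 ⟨i, hi, h4⟩
  have h4 := (Set.ncard_le_ncard h3 (Set.toFinite _)).trans h2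
  rw [ncard_blocks, ncard_blocks] at h4
  obtain ⟨sX1, sX2⟩ := sum_opt (sz a b K) b (2 ^ a) rfl (fun _ => rfl) X
  obtain ⟨sN1, sN2⟩ := sum_opt (sz a b K) b (2 ^ a) rfl (fun _ => rfl) N
  obtain ⟨cN1, cN2⟩ := sum_opt cap c 1 h0 h1 N
  unfold cp at hX
  set q := 2 ^ a with hq
  set SX := ∑ i ∈ X, sz a b K i
  set SN := ∑ i ∈ N, sz a b K i
  set CN := ∑ i ∈ N, cap i
  by_cases hnX : none ∈ X
  · have hnN := hdisj none hnX
    have a1 := sX1 hnX
    have a2 := sN2 hnN
    have a3 := cN2 hnN
    have a4 : N.card + 1 ≤ X.card := by omega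
    have a5 : q * (N.card + 1) ≤ q * X.card := Nat.mul_le_mul_left q a4
    rw [Nat.mul_add, mul_one] at a5
    omega
  · have a1 := sX2 hnX
    by_cases hnN : none ∈ N
    · have a2 := sN1 hnN
      have a3 := cN1 hnN
      have a4 : N.card + c ≤ X.card := by omega
      have a5 : q * (N.card + c) ≤ q * X.card := Nat.mul_le_mul_left q a4
      have a6 : q * (N.card + c) = q * N.card + c * q := by ring
      have a7 : (c + 1) * q = c * q + q := by ring
      omega
    · have a2 := sN2 hnN
      have a3 := cN2 hnN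
      have a4 : N.card + 1 ≤ X.card := by omega
      have a5 : q * (N.card + 1) ≤ q * X.card := Nat.mul_le_mul_left q a4
      rw [Nat.mul_add, mul_one] at a5
      omega

end nonmember

/-- **The block theorem for matchings.** -/
theorem main {n r : ℕ} {Q : SimpleGraph (Fin n) → Prop} (hQ : GP n r Q) (hr : r < n.choose 2)
    (a b s d e c : ℕ) (hn : s * 2 ^ a + b = n) (ha : 1 ≤ a) (hlow : ∀ G, Mt G d → Q G)
    (hup : ∀ G, Q G → Fr G e) (e1 : e < 2 ^ a) (e2 : e < b) (e3 : b + e < (c + 1) * 2 ^ a)
    (h0 : 2 ≤ b) (h1 : b ≤ 2 ^ a + d) (h2 : 2 ^ a ≤ b + d) (h3 : b ≤ 3 * d + 2)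
    (hc : c = 1 ∨ (c = 2 ∧ 2 * 2 ^ a ≤ b + d)) : False := by
  classical
  have : NeZero b := ⟨by omega⟩
  have : Fact (Nat.Prime 2) := ⟨Nat.prime_two⟩
  obtain ⟨a', rfl⟩ : ∃ a', a = a' + 1 := ⟨a - 1, by omega⟩
  have hh : 2 * 2 ^ a' = 2 ^ (a' + 1) := by rw [pow_succ]; ring
  set cap : Option (Fin s) → ℕ := fun i => i.elim c (fun _ => 1) with hcap
  have hV : Fintype.card (Vs (Bk (a' + 1) b (Fin s))) = n := by
    rw [card_Vs, Fintype.card_fin, hn]
  have hrel := relation hQ hV 2 (gA (a' + 1) b (Fin s)) (gC (a' + 1) b (Fin s))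
    (two_gA (a' + 1) b (Fin s)) (gen (a' + 1) b (Fin s)) hr
  have hmem : ∀ χ : Js (Bk (a' + 1) b (Fin s)) → Bool, Hl cap univ (psi χ) → Mt (Gs χ) d := by
    intro χ hH
    rcases hc with rfl | ⟨rfl, h5⟩
    · have h6 : cap = fun _ => 1 := by
        funext i
        rcases i with _ | k <;> rfl
      rw [h6] at hH
      exact member1 hh χ hH d h1 h2 h3
    · exact member2 hh χ hH d h1 h2 h3 (by omega) h5
  have hbit : ∀ χ : Js (Bk (a' + 1) b (Fin s)) → Bool,
      bit (PV Q (Vs (Bk (a' + 1) b (Fin s))) (Gs χ)) = bit (Hl cap univ (psi χ)) := by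
    intro χ
    refine bit_congr ⟨?_, ?_⟩
    · rintro ⟨f, hf⟩
      by_contra hH
      refine nonmember χ cap c e rfl (fun _ => rfl) e1 e2 e3 hH ?_
      refine Fr.map (G := (Gs χ).map f.toEmbedding) f.symm ?_ (hup _ hf)
      intro u v
      obtain ⟨u, rfl⟩ := f.surjective u
      obtain ⟨v, rfl⟩ := f.surjective v
      rw [Equiv.symm_apply_apply, Equiv.symm_apply_apply]
      exact SimpleGraph.map_adj_apply (f := f.toEmbedding)
    · intro hH
      let f : Vs (Bk (a' + 1) b (Fin s)) ≃ Fin n := Fintype.equivFinOfCardEq hV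
      refine ⟨f, hlow _ ((hmem χ hH).map f fun u v huv => ?_)⟩
      exact (SimpleGraph.map_adj_apply (f := f.toEmbedding)).2 huv
  have hne : ∀ i, Nonempty (Cl (Bk (a' + 1) b (Fin s) i)) := by
    intro i
    obtain ⟨z, hz⟩ : ∃ z : Bk (a' + 1) b (Fin s) i, z ≠ 0 := by
      have : Nontrivial (Bk (a' + 1) b (Fin s) i) := by
        refine Fintype.one_lt_card_iff_nontrivial.1 ?_
        rw [card_Bk]
        rcases i with _ | k
        · exact h0
        · show 1 < 2 ^ (a' + 1)
          have := Nat.one_le_two_pow (n := a')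
          omega
      exact exists_ne 0
    exact ⟨⟨s(z, -z), z, hz, rfl⟩⟩
  have hcap1 : ∀ i, 1 ≤ cap i := by
    rintro (_ | k)
    · show 1 ≤ c
      omega
    · exact le_refl 1
  rw [Finset.sum_congr rfl fun χ _ => by rw [hbit χ],
    reduce hne (fun ψ => Hl cap univ ψ), key hcap1] at hrel
  exact pow_ne_zero _ (by norm_num) hrel

/-- the choice of the sizes -/
theorem sizes (n d : ℕ) (hn : d + 2 ≤ n) (hpar : n % 2 = d % 2) :
    ∃ a b s c : ℕ, s * 2 ^ a + b = n ∧ 1 ≤ a ∧ d + 1 < 2 ^ a ∧ d + 1 < b ∧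
      b + (d + 1) < (c + 1) * 2 ^ a ∧ 2 ≤ b ∧ b ≤ 2 ^ a + d ∧ 2 ^ a ≤ b + d ∧ b ≤ 3 * d + 2 ∧
      (c = 1 ∨ (c = 2 ∧ 2 * 2 ^ a ≤ b + d)) := by
  set a := Nat.clog 2 (d + 2) with ha
  have h1 : d + 2 ≤ 2 ^ a := Nat.le_pow_clog (by norm_num) _
  have ha1 : 1 ≤ a := Nat.clog_pos (by norm_num) (by omega)
  have h2 : 2 ^ a ≤ 2 * (d + 1) := by
    have h3 : 2 ^ (a - 1) < d + 2 := Nat.pow_pred_clog_lt_self (b := 2) (x := d + 2) (by norm_num) (by omega)
    obtain ⟨a', ha'⟩ : ∃ a', a = a' + 1 := ⟨a - 1, by omega⟩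
    rw [ha', Nat.add_sub_cancel] at h3
    rw [ha', pow_succ]
    omega
  have hev : 2 ^ a % 2 = 0 := by
    obtain ⟨a', ha'⟩ : ∃ a', a = a' + 1 := ⟨a - 1, by omega⟩
    rw [ha', pow_succ]
    omega
  set q := 2 ^ a with hq
  have hq0 : 0 < q := by omega
  set m := n - (d + 2) with hm
  have hdiv := Nat.div_add_mod m q
  have hlt := Nat.mod_lt m hq0
  set b := d + 2 + m % q with hb
  have hsb : (m / q) * q + b = n := by
    rw [hb, mul_comm]
    omega
  have hbpar : b % 2 = d % 2 := by
    have h3 : ((m / q) * q) % 2 = 0 := by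
      rw [Nat.mul_mod, hev, mul_zero, Nat.zero_mod]
    omega
  by_cases hcase : b + (d + 1) < 2 * q
  · exact ⟨a, b, m / q, 1, hsb, ha1, by omega, by omega, by omega, by omega, by omega, by omega,
      by omega, Or.inl rfl⟩
  · exact ⟨a, b, m / q, 2, hsb, ha1, by omega, by omega, by omega, by omega, by omega, by omega,
      by omega, Or.inr ⟨rfl, by omega⟩⟩

end Pool.Agent.U96.EV
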