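import Pool.Agent.TH669.KS.Model

set_option autoImplicit false
set_option linter.unusedSectionVars false

/-!
# The signed sum over the invariant graphs as a sum over looped graphs on the blocks
-/

namespace Pool.Agent.U96.EV

open Finset
open Pool.Agent.TH669.KP (sgn bit bit_pos bit_neg bit_congr bit_and bit_not sgn_sum sgn_sigma
  sum_split sum_whole sum_sgn)
open Pool.Agent.TH669.KC (Pr Cl cls)
open Pool.Agent.TH669.KS (Vs Js)

section mk

variable {I : Type} [Fintype I] [DecidableEq I]

/-- the looped graph with given edges and given loops -/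
noncomputable def mkL (κ : Pr I → Bool) (w : I → Prop) : Sym2 I → Bool := fun e => by
  classical exact if h : ¬ e.IsDiag then κ ⟨e, h⟩ else decide (∀ i ∈ e, w i)

theorem mkL_ne (κ : Pr I → Bool) (w : I → Prop) {i j : I} (h : i ≠ j) :
    mkL κ w s(i, j) = κ ⟨s(i, j), by rw [Sym2.mk_isDiag_iff]; exact h⟩ := by
  unfold mkL
  rw [dif_pos]

theorem mkL_pr (κ : Pr I → Bool) (w : I → Prop) (e : Pr I) : mkL κ w e.1 = κ e := by
  unfold mkL
  rw [dif_pos e.2]

theorem mkL_self (κ : Pr I → Bool) (w : I → Prop) (i : I) : mkL κ w s(i, i) = true ↔ w i := by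
  unfold mkL
  rw [dif_neg (by simp)]
  simp

/-- looped graphs as pairs -/
noncomputable def eqL : (Sym2 I → Bool) ≃ (Pr I → Bool) × Finset I where
  toFun ψ := (fun e => ψ e.1, univ.filter fun i => ψ s(i, i) = true)
  invFun p := mkL p.1 (fun i => i ∈ p.2)
  left_inv ψ := by
    funext e
    induction e using Sym2.ind with
    | _ i j =>
    show mkL (fun e => ψ e.1) (fun k => k ∈ univ.filter fun i => ψ s(i, i) = true) s(i, j) =
      ψ s(i, j)
    by_cases h : i = j
    · subst h
      rw [Bool.eq_iff_iff, mkL_self]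
      simp
    · rw [mkL_ne _ _ h]
  right_inv := by
    rintro ⟨κ, W⟩
    refine Prod.ext ?_ ?_
    · funext e
      exact mkL_pr κ _ e
    · ext i
      rw [Finset.mem_filter]
      show (i ∈ univ ∧ mkL κ (fun i => i ∈ W) s(i, i) = true) ↔ i ∈ W
      rw [mkL_self]
      simp

theorem sgn_eqL (ψ : Sym2 I → Bool) : sgn ψ = sgn (eqL ψ).1 * (-1) ^ (eqL ψ).2.card := by
  classical
  unfold sgn
  rw [← Fintype.prod_subtype_mul_prod_subtype (fun e : Sym2 I => e.IsDiag)
    (fun e => if ψ e = true then (-1 : ℤ) else 1), mul_comm]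
  congr 1
  have h1 : ∏ e : {e : Sym2 I // e.IsDiag}, (if ψ e.1 = true then (-1 : ℤ) else 1) =
      ∏ i : I, (if ψ s(i, i) = true then (-1 : ℤ) else 1) := by
    symm
    refine Fintype.prod_bijective (fun i : I => (⟨s(i, i), by simp⟩ : {e : Sym2 I // e.IsDiag}))
      ⟨?_, ?_⟩ _ _ fun i => rfl
    · intro i j hij
      have := congrArg Subtype.val hij
      simpa using this
    · rintro ⟨e, he⟩
      induction e using Sym2.ind with
      | _ i j =>
      rw [Sym2.mk_isDiag_iff] at he
      have he' : i = j := he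
      subst he'
      exact ⟨i, rfl⟩
  rw [h1, Finset.prod_ite, Finset.prod_const, Finset.prod_const_one, mul_one]
  rfl

theorem sum_eqL (g : (Sym2 I → Bool) → ℤ) : ∑ ψ : Sym2 I → Bool, sgn ψ * g ψ =
    ∑ κ : Pr I → Bool, ∑ W : Finset I, sgn κ * ((-1) ^ W.card * g (mkL κ (fun i => i ∈ W))) := by
  rw [← Fintype.sum_prod_type' (fun (κ : Pr I → Bool) (W : Finset I) =>
    sgn κ * ((-1) ^ W.card * g (mkL κ (fun i => i ∈ W))))]
  refine Fintype.sum_equiv eqL _ _ fun ψ => ?_
  have h1 : mkL (eqL ψ).1 (fun i => i ∈ (eqL ψ).2) = ψ := eqL.symm_apply_apply ψ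
  rw [h1, sgn_eqL ψ]
  ring

end mk

section red

variable {I : Type} {A : I → Type} [∀ i, AddCommGroup (A i)] [∀ i, DecidableEq (A i)]
  [DecidableEq I] [Fintype I] [∀ i, Fintype (A i)]

/-- the looped graph of a configuration: a loop is a nonempty connection set -/
noncomputable def psi (χ : Js A → Bool) : Sym2 I → Bool :=
  mkL (fun e => χ (.inl e)) (fun i => ∃ d, χ (.inr ⟨i, d⟩) = true)

theorem sum_nonempty {X : Type} [Fintype X] [DecidableEq X] [Nonempty X] :
    ∑ χ : X → Bool, sgn χ * bit (∃ d, χ d = true) = -1 := by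
  have h1 : ∀ χ : X → Bool, sgn χ * bit (∃ d, χ d = true) =
      sgn χ - sgn χ * bit (∀ d, χ d = false) := by
    intro χ
    have h2 : bit (∃ d, χ d = true) = 1 - bit (∀ d, χ d = false) := by
      rw [← bit_not]
      refine bit_congr ?_
      push Not
      simp
    rw [h2]
    ring
  have h3 : ∑ χ : X → Bool, sgn χ * bit (∀ d, χ d = false) = 1 := by
    rw [Finset.sum_eq_single (fun _ => false)]
    · rw [bit_pos (fun _ => rfl)]
      simp [sgn]
    · intro κ _ hκ
      rw [bit_neg, mul_zero]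
      intro h
      exact hκ (funext h)
    · intro h
      exact absurd (Finset.mem_univ _) h
  rw [Finset.sum_congr rfl fun χ _ => h1 χ, Finset.sum_sub_distrib, h3, sum_sgn]
  norm_num

theorem reduce (hne : ∀ i, Nonempty (Cl (A i))) (H : (Sym2 I → Bool) → Prop) :
    ∑ χ : Js A → Bool, sgn χ * bit (H (psi χ)) =
      ∑ ψ : Sym2 I → Bool, sgn ψ * bit (H ψ) := by
  classical
  rw [sum_split, sum_eqL (fun ψ => bit (H ψ))]
  refine Finset.sum_congr rfl fun κ _ => ?_
  have h1 := sum_whole (X := fun i => Cl (A i)) (fun i χ => ∃ d, χ d = true) (fun _ => -1)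
    (fun i => sum_nonempty) (fun w => bit (H (mkL κ w)))
  have h2 : ∑ η : (Σ i, Cl (A i)) → Bool, sgn (Sum.elim κ η) * bit (H (psi (Sum.elim κ η))) =
      sgn κ * ∑ η : (Σ i, Cl (A i)) → Bool, sgn η *
        bit (H (mkL κ (fun i => ∃ d, η ⟨i, d⟩ = true))) := by
    rw [Finset.mul_sum]
    refine Finset.sum_congr rfl fun η _ => ?_
    rw [sgn_sum]
    unfold psi
    simp only [Sum.elim_inl, Sum.elim_inr]
    ring
  rw [h2, h1, Finset.prod_const, Finset.card_univ, Finset.mul_sum, Finset.mul_sum]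
  refine Finset.sum_congr rfl fun W _ => ?_
  have h3 : (-1 : ℤ) ^ Fintype.card I * (-1) ^ Wᶜ.card = (-1) ^ W.card := by
    have h4 : Fintype.card I + Wᶜ.card = W.card + 2 * Wᶜ.card := by
      have := Finset.card_add_card_compl W
      omega
    rw [← pow_add, h4, pow_add, pow_mul]
    norm_num
  rw [← mul_assoc ((-1 : ℤ) ^ Fintype.card I), h3]

end red

end Pool.Agent.U96.EV
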